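import Mathlib

namespace Pool.Agent.MCJ

/-- `x` is Turing reducible to `y` (total functions on the natural numbers). -/
def Red (x y : ℕ → ℕ) : Prop :=
  TuringReducible (fun n => Part.some (x n)) (fun n => Part.some (y n))

theorem red_iff {x y : ℕ → ℕ} :
    Red x y ↔ Nat.RecursiveIn {fun n => Part.some (y n)} (fun n => Part.some (x n)) := by
  unfold Red TuringReducible
  exact RecursiveIn.iff_nat

theorem Red.refl (x : ℕ → ℕ) : Red x x := TuringReducible.refl _

theorem Red.trans {x y z : ℕ → ℕ} (h : Red x y) (h' : Red y z) : Red x z :=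
  TuringReducible.trans h h'

theorem red_prim {p : ℕ → ℕ} (hp : Nat.Primrec p) (y : ℕ → ℕ) : Red p y :=
  red_iff.2 (Nat.Primrec.recursiveIn hp)

theorem red_prim' {p : ℕ → ℕ} (hp : Primrec p) (y : ℕ → ℕ) : Red p y :=
  red_prim (Primrec.nat_iff.1 hp) y

theorem red_comp {u v y : ℕ → ℕ} (hu : Red u y) (hv : Red v y) : Red (fun n => u (v n)) y := by
  rw [red_iff] at *
  refine (Nat.RecursiveIn.comp hu hv).of_eq fun n => ?_
  simp

theorem red_pair {u v y : ℕ → ℕ} (hu : Red u y) (hv : Red v y) :
    Red (fun n => Nat.pair (u n) (v n)) y := by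
  rw [red_iff] at *
  refine (Nat.RecursiveIn.pair hu hv).of_eq fun n => ?_
  simp [Seq.seq]

theorem red_prim2 {p : ℕ → ℕ → ℕ} (hp : Primrec₂ p) {u v y : ℕ → ℕ} (hu : Red u y)
    (hv : Red v y) : Red (fun n => p (u n) (v n)) y := by
  have h1 : Nat.Primrec (Nat.unpaired p) := Primrec₂.unpaired'.2 hp
  have h2 := red_comp (red_prim h1 y) (red_pair hu hv)
  simpa [Nat.unpaired] using h2

theorem red_const (k : ℕ) (y : ℕ → ℕ) : Red (fun _ => k) y := red_prim (Nat.Primrec.const k) y

theorem red_id (y : ℕ → ℕ) : Red (fun n => n) y := red_prim' Primrec.id y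

theorem red_add {u v y : ℕ → ℕ} (hu : Red u y) (hv : Red v y) : Red (fun n => u n + v n) y :=
  red_prim2 Primrec.nat_add hu hv

theorem red_mul {u v y : ℕ → ℕ} (hu : Red u y) (hv : Red v y) : Red (fun n => u n * v n) y :=
  red_prim2 Primrec.nat_mul hu hv

theorem red_sub {u v y : ℕ → ℕ} (hu : Red u y) (hv : Red v y) : Red (fun n => u n - v n) y :=
  red_prim2 Primrec.nat_sub hu hv

theorem red_mod {u v y : ℕ → ℕ} (hu : Red u y) (hv : Red v y) : Red (fun n => u n % v n) y :=
  red_prim2 Primrec.nat_mod hu hv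

theorem red_div {u v y : ℕ → ℕ} (hu : Red u y) (hv : Red v y) : Red (fun n => u n / v n) y :=
  red_prim2 Primrec.nat_div hu hv

theorem red_eqv {u v y : ℕ → ℕ} (hu : Red u y) (hv : Red v y) :
    Red (fun n => if u n = v n then 1 else 0) y := by
  have hp : Primrec₂ (fun a b : ℕ => if a = b then 1 else 0) := by
    have : Primrec (fun p : ℕ × ℕ => if p.1 = p.2 then 1 else 0) :=
      Primrec.ite (PrimrecRel.comp Primrec.eq Primrec.fst Primrec.snd)
        (Primrec.const 1) (Primrec.const 0)
    exact this
  exact red_prim2 hp hu hv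

theorem red_sum {ι : Type*} (s : Finset ι) {u : ι → ℕ → ℕ} {y : ℕ → ℕ}
    (hu : ∀ i ∈ s, Red (u i) y) : Red (fun n => ∑ i ∈ s, u i n) y := by
  classical
  induction s using Finset.induction_on with
  | empty => simpa using red_const 0 y
  | insert a s ha ih =>
    have h1 := ih (fun i hi => hu i (Finset.mem_insert_of_mem hi))
    have h2 := hu a (Finset.mem_insert_self a s)
    simpa [Finset.sum_insert ha] using red_add h2 h1

/-- Least zero search. -/
theorem red_find {u y : ℕ → ℕ} (hu : Red u y) {v : ℕ → ℕ}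
    (hv : ∀ n, u (Nat.pair n (v n)) = 0) (hv' : ∀ n m, m < v n → u (Nat.pair n m) ≠ 0) :
    Red v y := by
  rw [red_iff] at *
  refine (Nat.RecursiveIn.rfind hu).of_eq fun n => ?_
  rw [Part.eq_some_iff, Nat.mem_rfind]
  refine ⟨by simp [hv n], fun {m} hm => by simp [hv' n m hm]⟩

/-- Iteration. -/
theorem red_iter {s y : ℕ → ℕ} (k : ℕ) (hs : Red s y) {u : ℕ → ℕ} (h0 : u 0 = k)
    (h1 : ∀ n, u (n + 1) = s (Nat.pair n (u n))) : Red u y := by
  have hs' : Red (fun p => s (Nat.unpair p).2) y :=
    red_comp hs (red_prim Nat.Primrec.right y)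
  have h2 : Red (fun p => u (Nat.unpair p).2) y := by
    rw [red_iff] at hs' ⊢
    have hk : Nat.RecursiveIn {fun n => Part.some (y n)} (fun _ => Part.some k) :=
      red_iff.1 (red_const k y)
    refine (Nat.RecursiveIn.prec hk hs').of_eq fun p => ?_
    have : ∀ a n : ℕ, (Nat.rec (Part.some k) (fun y IH => IH.bind fun i =>
        Part.some (s (Nat.unpair (Nat.pair a (Nat.pair y i))).2)) n : Part ℕ)
        = Part.some (u n) := by
      intro a n
      induction n with
      | zero => simp [h0]
      | succ n ih =>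
        have h2 := congrArg (fun P : Part ℕ => P.bind fun i =>
          Part.some (s (Nat.unpair (Nat.pair a (Nat.pair n i))).2)) ih
        simpa [h1] using h2
    simpa using this (Nat.unpair p).1 (Nat.unpair p).2
  have h3 := red_comp h2 (red_pair (red_const 0 y) (red_id y))
  simpa using h3

/-- Code of an initial segment. -/
def pre (g : ℕ → ℕ) : ℕ → ℕ
  | 0 => 0
  | (L + 1) => Nat.pair (pre g L) (g L)

theorem red_pre {g y : ℕ → ℕ} (hg : Red g y) : Red (pre g) y := by
  have hs : Red (fun p => Nat.pair (Nat.unpair p).2 (g (Nat.unpair p).1)) y :=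
    red_pair (red_prim Nat.Primrec.right y) (red_comp hg (red_prim Nat.Primrec.left y))
  exact red_iter 0 hs rfl (fun n => by simp [pre])

theorem pre_inj {g g' : ℕ → ℕ} : ∀ {L : ℕ}, pre g L = pre g' L → ∀ q < L, g q = g' q := by
  intro L
  induction L with
  | zero => intro _ q hq; omega
  | succ L ih =>
    intro h q hq
    simp only [pre, Nat.pair_eq_pair] at h
    rcases Nat.lt_succ_iff_lt_or_eq.1 hq with h1 | h1
    · exact ih h.1 q h1
    · rw [h1]; exact h.2

theorem pre_congr {g g' : ℕ → ℕ} {L : ℕ} (h : ∀ q < L, g q = g' q) : pre g L = pre g' L := by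
  induction L with
  | zero => rfl
  | succ L ih =>
    simp only [pre]
    rw [ih (fun q hq => h q (Nat.lt_succ_of_lt hq)), h L (Nat.lt_succ_self L)]

/-- The join of two functions. -/
def join (x y : ℕ → ℕ) : ℕ → ℕ := fun k => if k % 2 = 0 then x (k / 2) else y (k / 2)

theorem red_left (x y : ℕ → ℕ) : Red x (join x y) := by
  have h := red_comp (Red.refl (join x y)) (red_mul (red_const 2 _) (red_id _))
  have e : (fun n => join x y (2 * n)) = x := by
    funext n
    simp [join]
  rwa [e] at h

theorem red_right (x y : ℕ → ℕ) : Red y (join x y) := by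
  have h := red_comp (Red.refl (join x y))
    (red_add (red_mul (red_const 2 _) (red_id _)) (red_const 1 _))
  have e : (fun n => join x y (2 * n + 1)) = y := by
    funext n
    have h1 : (2 * n + 1) % 2 = 1 := by omega
    have h2 : (2 * n + 1) / 2 = n := by omega
    simp [join, h1, h2]
  rwa [e] at h

theorem red_join {x y z : ℕ → ℕ} (hx : Red x z) (hy : Red y z) : Red (join x y) z := by
  have h2 : Red (fun k => k / 2) z := red_div (red_id _) (red_const 2 _)
  have he : Red (fun k => if k % 2 = 0 then 1 else 0) z :=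
    red_eqv (red_mod (red_id _) (red_const 2 _)) (red_const 0 _)
  have h := red_add (red_mul he (red_comp hx h2))
    (red_mul (red_sub (red_const 1 _) he) (red_comp hy h2))
  have e : (fun n => (if n % 2 = 0 then 1 else 0) * x (n / 2) +
      (1 - if n % 2 = 0 then 1 else 0) * y (n / 2)) = join x y := by
    funext n
    unfold join
    split_ifs <;> simp
  rwa [e] at h

/-- Every sequence of functions has an upper bound. -/
theorem exists_bound (X : ℕ → ℕ → ℕ) : ∃ c, ∀ k, Red (X k) c := by
  refine ⟨fun q => X (Nat.unpair q).1 (Nat.unpair q).2, fun k => ?_⟩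
  have h := red_comp (Red.refl (fun q => X (Nat.unpair q).1 (Nat.unpair q).2))
    (red_pair (red_const k _) (red_id _))
  simpa using h

/-- Turing equivalence of total functions. -/
def degSetoid : Setoid (ℕ → ℕ) where
  r x y := Red x y ∧ Red y x
  iseqv :=
    ⟨fun x => ⟨Red.refl x, Red.refl x⟩, fun h => ⟨h.2, h.1⟩,
      fun h h' => ⟨h.1.trans h'.1, h'.2.trans h.2⟩⟩

/-- The Turing degrees. -/
def Deg : Type := Quotient degSetoid

/-- The Turing degree of a function. -/
def deg (x : ℕ → ℕ) : Deg := Quotient.mk degSetoid x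

instance : SemilatticeSup Deg where
  le := Quotient.lift₂ (s₁ := degSetoid) (s₂ := degSetoid) (fun x y => Red x y) (by
    intro a₁ b₁ a₂ b₂ h1 h2
    exact propext ⟨fun h => (h1.2.trans h).trans h2.1, fun h => (h1.1.trans h).trans h2.2⟩)
  le_refl := by
    intro a
    exact Quotient.inductionOn a (fun x => Red.refl x)
  le_trans := by
    intro a b c
    exact Quotient.inductionOn₃ a b c (fun x y z h h' => Red.trans h h')
  le_antisymm := by
    intro a b
    exact Quotient.inductionOn₂ a b (fun x y h h' => Quotient.sound ⟨h, h'⟩)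
  sup := Quotient.map₂ (sa := degSetoid) (sb := degSetoid) (sc := degSetoid) join (by
    intro a₁ a₂ h1 b₁ b₂ h2
    exact ⟨red_join (h1.1.trans (red_left _ _)) (h2.1.trans (red_right _ _)),
      red_join (h1.2.trans (red_left _ _)) (h2.2.trans (red_right _ _))⟩)
  le_sup_left := by
    intro a b
    exact Quotient.inductionOn₂ a b (fun x y => red_left x y)
  le_sup_right := by
    intro a b
    exact Quotient.inductionOn₂ a b (fun x y => red_right x y)
  sup_le := by
    intro a b c
    exact Quotient.inductionOn₃ a b c (fun x y z h h' => red_join h h')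

theorem deg_le {x y : ℕ → ℕ} : deg x ≤ deg y ↔ Red x y := Iff.rfl

theorem deg_eq {x y : ℕ → ℕ} : deg x = deg y ↔ Red x y ∧ Red y x :=
  ⟨fun h => Quotient.exact h, fun h => Quotient.sound h⟩

instance : OrderBot Deg where
  bot := deg (fun _ => 0)
  bot_le := by
    intro a
    exact Quotient.inductionOn a (fun x => red_const 0 x)

theorem exists_rep (a : Deg) : ∃ x, deg x = a := Quotient.exists_rep a

end Pool.Agent.MCJ
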