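import Mathlib
import Pool.Agent.Lib.MCJ.Turing

namespace Pool.Agent.MCJ

open Filter Topology Set

/-- The set of points with the same initial segment of length `L` as `g`. -/
def cyl (g : ℕ → Bool) (L : ℕ) : Set (ℕ → Bool) := {g' | ∀ q < L, g' q = g q}

theorem self_mem_cyl (g : ℕ → Bool) (L : ℕ) : g ∈ cyl g L := fun _ _ => rfl

theorem cyl_mono (g : ℕ → Bool) {L L' : ℕ} (h : L ≤ L') : cyl g L' ⊆ cyl g L :=
  fun _ hg q hq => hg q (lt_of_lt_of_le hq h)

theorem cyl_congr {g g' : ℕ → Bool} {L : ℕ} (h : ∀ q < L, g' q = g q) : cyl g' L ⊆ cyl g L :=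
  fun _ hf q hq => (hf q hq).trans (h q hq)

theorem isOpen_cyl (g : ℕ → Bool) (L : ℕ) : IsOpen (cyl g L) := by
  have h : cyl g L = ⋂ q ∈ Finset.range L, (fun g' : ℕ → Bool => g' q) ⁻¹' {g q} := by
    ext f
    simp [cyl]
  rw [h]
  exact isOpen_biInter_finset
    (fun q _ => (isOpen_discrete ({g q} : Set Bool)).preimage (continuous_apply q))

theorem exists_cyl {O : Set (ℕ → Bool)} (hO : IsOpen O) {g : ℕ → Bool} (hg : g ∈ O) :
    ∃ L, cyl g L ⊆ O := by
  obtain ⟨v, ⟨x, n, rfl⟩, hgv, hv⟩ :=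
    (PiNat.isTopologicalBasis_cylinders (fun _ : ℕ => Bool)).exists_subset_of_mem_open hg hO
  refine ⟨n, fun f hf => hv ?_⟩
  intro i hi
  rw [hf i hi]
  exact hgv i hi

theorem block_step (P : (ℕ → Bool) → ℕ → Prop)
    (hmono : ∀ g L L', L ≤ L' → P g L → P g L')
    (hcongr : ∀ (g g' : ℕ → Bool) (L : ℕ), (∀ q < L, g' q = g q) → P g L → P g' L)
    (hdense : ∀ (g : ℕ → Bool) (L : ℕ), ∃ (g' : ℕ → Bool) (L' : ℕ), L ≤ L' ∧
      (∀ q < L, g' q = g q) ∧ P g' L')
    (N d : ℕ) (hd : 0 < d) :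
    ∃ (L : ℕ) (u : ℕ → Bool), N < L ∧ d ∣ L ∧
      ∀ g, (∀ q, N ≤ q → q < L → g q = u q) → P g L := by
  classical
  have key : ∀ T : Finset (Fin N → Bool), ∃ (L : ℕ) (u : ℕ → Bool), N ≤ L ∧
      ∀ g : ℕ → Bool, (fun i : Fin N => g i) ∈ T →
        (∀ q, N ≤ q → q < L → g q = u q) → P g L := by
    intro T
    induction T using Finset.induction_on with
    | empty => exact ⟨N, fun _ => true, le_refl _, fun g hg => by simp at hg⟩
    | insert s T hs ih =>
      obtain ⟨L, u, hNL, hT⟩ := ih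
      obtain ⟨g', L', hLL', hag, hP⟩ :=
        hdense (fun q => if h : q < N then s ⟨q, h⟩ else u q) L
      refine ⟨L', g', le_trans hNL hLL', fun g hg hag' => ?_⟩
      rcases Finset.mem_insert.1 hg with h | h
      · refine hcongr g' g L' (fun q hq => ?_) hP
        by_cases hq' : q < N
        · rw [hag q (lt_of_lt_of_le hq' hNL), dif_pos hq', ← h]
        · exact hag' q (not_lt.1 hq') hq
      · refine hmono g L L' hLL' (hT g h (fun q h1 h2 => ?_))
        rw [hag' q h1 (lt_of_lt_of_le h2 hLL'), hag q h2, dif_neg (not_lt.2 h1)]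
  obtain ⟨L, u, hNL, hu⟩ := key Finset.univ
  have h1 : L + 1 ≤ d * (L + 1) := Nat.le_mul_of_pos_left _ hd
  refine ⟨d * (L + 1), u, by omega, dvd_mul_right _ _, fun g hg => ?_⟩
  exact hmono g L _ (by omega) (hu g (Finset.mem_univ _) (fun q h2 h3 => hg q h2 (by omega)))

theorem block_unique {N : ℕ → ℕ} (hN : StrictMono N) {q b b' : ℕ} (h1 : N b ≤ q)
    (h2 : q < N (b + 1)) (h3 : N b' ≤ q) (h4 : q < N (b' + 1)) : b = b' := by
  have h5 : b < b' + 1 := hN.lt_iff_lt.1 (lt_of_le_of_lt h1 h4)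
  have h6 : b' < b + 1 := hN.lt_iff_lt.1 (lt_of_le_of_lt h3 h2)
  omega

theorem block_exists {N : ℕ → ℕ} (hN : StrictMono N) (h0 : N 0 = 0) (q : ℕ) :
    ∃ b, N b ≤ q ∧ q < N (b + 1) := by
  have h : ∃ b, q < N (b + 1) := ⟨q, lt_of_lt_of_le (Nat.lt_succ_self q) (hN.le_apply)⟩
  classical
  refine ⟨Nat.find h, ?_, Nat.find_spec h⟩
  rcases Nat.eq_zero_or_pos (Nat.find h) with h1 | h1
  · rw [h1, h0]; exact Nat.zero_le _
  · have h2 := Nat.find_min h (Nat.sub_lt h1 Nat.one_pos)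
    rw [Nat.sub_add_cancel h1] at h2
    exact not_lt.1 h2

theorem blocks (ψ : ℕ → (ℕ → Bool) → (ℕ → ℕ))
    (hψ : ∀ s m v, BaireMeasurableSet {g | ψ s g m = v}) (d : ℕ) (hd : 0 < d) :
    ∃ (N : ℕ → ℕ) (w : ℕ → Bool) (V : ℕ → ℕ → ℕ → ℕ → ℕ), N 0 = 0 ∧ StrictMono N ∧
      (∀ b, d ∣ N b) ∧
      ∀ g : ℕ → Bool, (∀ k, ∃ b, k ≤ b ∧ ∀ q, N b ≤ q → q < N (b + 1) → g q = w q) →
        ∀ b, (∀ q, N b ≤ q → q < N (b + 1) → g q = w q) → ∀ s ≤ b, ∀ m ≤ b,
          ψ s g m = V s m b (pre (fun q => (g q).toNat) (N (b + 1))) := by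
  classical
  have hop : ∀ s m v, ∃ u : Set (ℕ → Bool), IsOpen u ∧ {g | ψ s g m = v} =ᶠ[residual _] u :=
    fun s m v => (hψ s m v).residualEq_isOpen
  choose O hO hO' using hop
  have hG : ∀ᶠ g in residual (ℕ → Bool), ∀ s m v, (ψ s g m = v ↔ g ∈ O s m v) := by
    rw [eventually_countable_forall]; intro s
    rw [eventually_countable_forall]; intro m
    rw [eventually_countable_forall]; intro v
    filter_upwards [hO' s m v] with g hg
    exact Iff.of_eq hg
  obtain ⟨S, hSo, hSd, hSc, hSG⟩ := mem_residual_iff.1 hG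
  obtain ⟨D, hD⟩ := (hSc.insert (univ : Set (ℕ → Bool))).exists_eq_range (insert_nonempty _ _)
  have hDo : ∀ k, IsOpen (D k) := by
    intro k
    have : D k ∈ insert univ S := by rw [hD]; exact mem_range_self k
    rcases this with h | h
    · rw [h]; exact isOpen_univ
    · exact hSo _ h
  have hDS : ∀ g : ℕ → Bool, (∀ k, g ∈ D k) → ∀ s m v, (ψ s g m = v ↔ g ∈ O s m v) := by
    intro g hg
    apply hSG
    intro t ht
    have : t ∈ range D := by rw [← hD]; exact mem_insert_of_mem _ ht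
    obtain ⟨k, rfl⟩ := this
    exact hg k
  have hdn : Dense (⋂₀ S) := dense_sInter_of_isOpen hSo hSc hSd
  let P : ℕ → (ℕ → Bool) → ℕ → Prop := fun b g L =>
    (∀ k ≤ b, cyl g L ⊆ D k) ∧ ∀ s ≤ b, ∀ m ≤ b, ∃ v, cyl g L ⊆ O s m v
  have hmono : ∀ b g L L', L ≤ L' → P b g L → P b g L' := by
    intro b g L L' h hP
    refine ⟨fun k hk => (cyl_mono g h).trans (hP.1 k hk), fun s hs m hm => ?_⟩
    obtain ⟨v, hv⟩ := hP.2 s hs m hm
    exact ⟨v, (cyl_mono g h).trans hv⟩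
  have hcongr : ∀ b g g' L, (∀ q < L, g' q = g q) → P b g L → P b g' L := by
    intro b g g' L h hP
    refine ⟨fun k hk => (cyl_congr h).trans (hP.1 k hk), fun s hs m hm => ?_⟩
    obtain ⟨v, hv⟩ := hP.2 s hs m hm
    exact ⟨v, (cyl_congr h).trans hv⟩
  have hdense : ∀ (b : ℕ) (g : ℕ → Bool) (L : ℕ), ∃ (g' : ℕ → Bool) (L' : ℕ), L ≤ L' ∧
      (∀ q < L, g' q = g q) ∧ P b g' L' := by
    intro b g L
    obtain ⟨g', hg', hg''⟩ := hdn.inter_open_nonempty _ (isOpen_cyl g L) ⟨g, self_mem_cyl g L⟩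
    have hgD : ∀ k, g' ∈ D k := by
      intro k
      have : D k ∈ insert univ S := by rw [hD]; exact mem_range_self k
      rcases this with h | h
      · rw [h]; exact mem_univ _
      · exact hg'' _ h
    have hk : ∀ k, ∃ l, cyl g' l ⊆ D k := fun k => exists_cyl (hDo k) (hgD k)
    have hsm : ∀ s m, ∃ l, cyl g' l ⊆ O s m (ψ s g' m) := fun s m =>
      exists_cyl (hO s m _) ((hDS g' hgD s m _).1 rfl)
    choose lk hlk using hk
    choose ls hls using hsm
    refine ⟨g', max L (max ((Finset.range (b + 1)).sup lk)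
      ((Finset.range (b + 1)).sup fun s => (Finset.range (b + 1)).sup fun m => ls s m)),
      le_max_left _ _, hg', ?_, ?_⟩
    · intro k hk
      refine (cyl_mono g' ?_).trans (hlk k)
      exact le_trans (Finset.le_sup (f := lk) (Finset.mem_range.2 (Nat.lt_succ_of_le hk)))
        (le_trans (le_max_left _ _) (le_max_right _ _))
    · intro s hs m hm
      refine ⟨_, (cyl_mono g' ?_).trans (hls s m)⟩
      have h1 : ls s m ≤ (Finset.range (b + 1)).sup fun m => ls s m :=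
        Finset.le_sup (f := fun m => ls s m) (Finset.mem_range.2 (Nat.lt_succ_of_le hm))
      have h2 : ((Finset.range (b + 1)).sup fun m => ls s m) ≤
          (Finset.range (b + 1)).sup fun s => (Finset.range (b + 1)).sup fun m => ls s m :=
        Finset.le_sup (f := fun s => (Finset.range (b + 1)).sup fun m => ls s m)
          (Finset.mem_range.2 (Nat.lt_succ_of_le hs))
      exact le_trans h1 (le_trans h2 (le_trans (le_max_right _ _) (le_max_right _ _)))
  have step : ∀ b N, ∃ (L : ℕ) (u : ℕ → Bool), N < L ∧ d ∣ L ∧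
      ∀ g, (∀ q, N ≤ q → q < L → g q = u q) → P b g L := fun b N =>
    block_step (P b) (hmono b) (hcongr b) (hdense b) N d hd
  choose Lf uf h1 h2 h3 using step
  let N : ℕ → ℕ := fun b => Nat.rec 0 (fun b n => Lf b n) b
  have hN1 : ∀ b, N (b + 1) = Lf b (N b) := fun b => rfl
  have hNs : StrictMono N := strictMono_nat_of_lt_succ (fun b => by rw [hN1]; exact h1 b (N b))
  have hNd : ∀ b, d ∣ N b := by
    intro b
    cases b with
    | zero => exact dvd_zero d
    | succ b => rw [hN1]; exact h2 b (N b)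
  choose B hB1 hB2 using fun q => block_exists hNs (rfl : N 0 = 0) q
  let w : ℕ → Bool := fun q => uf (B q) (N (B q)) q
  have hPw : ∀ b (g : ℕ → Bool), (∀ q, N b ≤ q → q < N (b + 1) → g q = w q) →
      P b g (N (b + 1)) := by
    intro b g hg
    rw [hN1]
    refine h3 b (N b) g (fun q hq1 hq2 => ?_)
    have hb : B q = b := block_unique hNs (hB1 q) (hB2 q) hq1 (by rw [hN1]; exact hq2)
    rw [hg q hq1 (by rw [hN1]; exact hq2)]
    show uf (B q) (N (B q)) q = _
    rw [hb]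
  let V : ℕ → ℕ → ℕ → ℕ → ℕ := fun s m b t =>
    if h : ∃ v, ∃ g : ℕ → Bool, pre (fun q => (g q).toNat) (N (b + 1)) = t ∧
      cyl g (N (b + 1)) ⊆ O s m v then h.choose else 0
  refine ⟨N, w, V, rfl, hNs, hNd, fun g hfr b hb s hs m hm => ?_⟩
  have hgD : ∀ k, g ∈ D k := by
    intro k
    obtain ⟨b', hb', hb''⟩ := hfr k
    exact (hPw b' g hb'').1 k hb' (self_mem_cyl _ _)
  obtain ⟨v, hv⟩ := (hPw b g hb).2 s hs m hm
  have hex : ∃ v, ∃ g' : ℕ → Bool, pre (fun q => (g' q).toNat) (N (b + 1)) =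
      pre (fun q => (g q).toNat) (N (b + 1)) ∧ cyl g' (N (b + 1)) ⊆ O s m v := ⟨v, g, rfl, hv⟩
  have hV : V s m b (pre (fun q => (g q).toNat) (N (b + 1))) = hex.choose := dif_pos hex
  rw [hV]
  obtain ⟨g', hg1, hg2⟩ := hex.choose_spec
  rw [hDS g hgD s m]
  apply hg2
  intro q hq
  have h5 := pre_inj hg1 q hq
  revert h5
  cases g' q <;> cases g q <;> simp

end Pool.Agent.MCJ
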