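import Mathlib
import Pool.Agent.Lib.MCJ.Turing

namespace Pool.Agent.MCJ

/-- The initial segment of length `L` as a list. -/
def pl (x : ℕ → ℕ) (L : ℕ) : List ℕ := (List.range L).map x

theorem pl_prefix (x : ℕ → ℕ) {L L' : ℕ} (h : L ≤ L') : pl x L <+: pl x L' := by
  obtain ⟨k, rfl⟩ := Nat.exists_eq_add_of_le h
  unfold pl
  rw [List.range_add, List.map_append]
  exact List.prefix_append _ _

theorem pl_length (x : ℕ → ℕ) (L : ℕ) : (pl x L).length = L := by simp [pl]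

theorem pl_getElem? (x : ℕ → ℕ) (L n : ℕ) : (pl x L)[n]? = if n < L then some (x n) else none := by
  unfold pl
  rw [List.getElem?_map]
  split_ifs with h
  · rw [List.getElem?_range h]; rfl
  · rw [List.getElem?_eq_none (by simpa using h)]; rfl

/-- `f` is computed continuously from the initial segments of `x`. -/
def Cont (x : ℕ → ℕ) (f : ℕ →. ℕ) : Prop :=
  ∃ Φ : ℕ → List ℕ →. ℕ, Partrec₂ Φ ∧
    (∀ n τ τ' v, τ <+: τ' → v ∈ Φ n τ → v ∈ Φ n τ') ∧
    ∀ n v, v ∈ f n ↔ ∃ L, v ∈ Φ n (pl x L)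

theorem bounded_max {P : ℕ → ℕ → Prop} (hP : ∀ m L L', L ≤ L' → P m L → P m L') (v : ℕ)
    (h : ∀ m < v, ∃ L, P m L) : ∃ L, ∀ m < v, P m L := by
  induction v with
  | zero => exact ⟨0, fun m hm => absurd hm (Nat.not_lt_zero m)⟩
  | succ v ih =>
    obtain ⟨L, hL⟩ := ih (fun m hm => h m (Nat.lt_succ_of_lt hm))
    obtain ⟨L', hL'⟩ := h v (Nat.lt_succ_self v)
    refine ⟨max L L', fun m hm => ?_⟩
    rcases Nat.lt_succ_iff_lt_or_eq.1 hm with h1 | h1
    · exact hP m L _ (le_max_left _ _) (hL m h1)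
    · rw [h1]; exact hP v L' _ (le_max_right _ _) hL'

theorem cont_of_rec {x : ℕ → ℕ} {f : ℕ →. ℕ}
    (h : Nat.RecursiveIn {fun n => Part.some (x n)} f) : Cont x f := by
  induction h with
  | zero =>
    refine ⟨fun _ _ => Part.some 0, (Computable.const 0).partrec.to₂, fun _ _ _ _ _ h => h, ?_⟩
    intro n v
    exact ⟨fun h => ⟨0, h⟩, fun ⟨_, h⟩ => h⟩
  | succ =>
    refine ⟨fun n _ => Part.some (n + 1), (Computable.succ.comp Computable.fst).partrec.to₂,
      fun _ _ _ _ _ h => h, ?_⟩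
    intro n v
    exact ⟨fun h => ⟨0, h⟩, fun ⟨_, h⟩ => h⟩
  | left =>
    refine ⟨fun n _ => Part.some (Nat.unpair n).1,
      (Computable.fst.comp (Computable.unpair.comp Computable.fst)).partrec.to₂,
      fun _ _ _ _ _ h => h, ?_⟩
    intro n v
    exact ⟨fun h => ⟨0, h⟩, fun ⟨_, h⟩ => h⟩
  | right =>
    refine ⟨fun n _ => Part.some (Nat.unpair n).2,
      (Computable.snd.comp (Computable.unpair.comp Computable.fst)).partrec.to₂,
      fun _ _ _ _ _ h => h, ?_⟩
    intro n v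
    exact ⟨fun h => ⟨0, h⟩, fun ⟨_, h⟩ => h⟩
  | oracle g hg =>
    have hg' : g = fun n => Part.some (x n) := hg
    subst hg'
    refine ⟨fun n τ => (τ[n]? : Part ℕ), ?_, ?_, ?_⟩
    · exact (Computable.ofOption (Primrec.list_getElem?.comp Primrec.snd
        Primrec.fst).to_comp).to₂
    · intro n τ τ' v hτ hv
      obtain ⟨ρ, rfl⟩ := hτ
      simp only [Part.mem_ofOption, Option.mem_def] at hv ⊢
      rw [List.getElem?_append_left]
      · exact hv
      · exact (List.getElem?_eq_some_iff.1 hv).1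
    · intro n v
      simp only [Part.mem_some_iff, Part.mem_ofOption, Option.mem_def, pl_getElem?]
      constructor
      · rintro rfl
        exact ⟨n + 1, by simp⟩
      · rintro ⟨L, hL⟩
        split_ifs at hL with h
        exact (Option.some.inj hL).symm
  | pair _ _ ihf ihh =>
    obtain ⟨Φ, hΦ, mΦ, eΦ⟩ := ihf
    obtain ⟨Ψ, hΨ, mΨ, eΨ⟩ := ihh
    refine ⟨fun n τ => (Φ n τ).bind fun a => (Ψ n τ).map fun b => Nat.pair a b, ?_, ?_, ?_⟩
    · show Partrec fun q : ℕ × List ℕ => (Φ q.1 q.2).bind fun a => (Ψ q.1 q.2).map fun b =>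
        Nat.pair a b
      refine Partrec.bind hΦ ?_
      show Partrec fun r : (ℕ × List ℕ) × ℕ => (Ψ r.1.1 r.1.2).map fun b => Nat.pair r.2 b
      refine Partrec.map (hΨ.comp (Computable.fst.comp Computable.fst)
        (Computable.snd.comp Computable.fst)) ?_
      show Computable fun t : ((ℕ × List ℕ) × ℕ) × ℕ => Nat.pair t.1.2 t.2
      exact Primrec₂.natPair.to_comp.comp (Computable.snd.comp Computable.fst)
        Computable.snd
    · intro n τ τ' v hτ hv
      simp only [Part.mem_bind_iff, Part.mem_map_iff] at hv ⊢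
      obtain ⟨a, ha, b, hb, rfl⟩ := hv
      exact ⟨a, mΦ _ _ _ _ hτ ha, b, mΨ _ _ _ _ hτ hb, rfl⟩
    · intro n v
      simp only [Seq.seq, Part.map_eq_map, Part.mem_bind_iff,
        Part.mem_map_iff, exists_exists_and_eq_and]
      constructor
      · rintro ⟨a, ha, b, hb, rfl⟩
        obtain ⟨L, hL⟩ := (eΦ n a).1 ha
        obtain ⟨L', hL'⟩ := (eΨ n b).1 hb
        exact ⟨max L L', a, mΦ _ _ _ _ (pl_prefix x (le_max_left _ _)) hL, b,
          mΨ _ _ _ _ (pl_prefix x (le_max_right _ _)) hL', rfl⟩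
      · rintro ⟨L, a, ha, b, hb, rfl⟩
        exact ⟨a, (eΦ n a).2 ⟨L, ha⟩, b, (eΨ n b).2 ⟨L, hb⟩, rfl⟩
  | comp _ _ ihf ihh =>
    obtain ⟨Φ, hΦ, mΦ, eΦ⟩ := ihf
    obtain ⟨Ψ, hΨ, mΨ, eΨ⟩ := ihh
    refine ⟨fun n τ => (Ψ n τ).bind fun a => Φ a τ, ?_, ?_, ?_⟩
    · show Partrec fun q : ℕ × List ℕ => (Ψ q.1 q.2).bind fun a => Φ a q.2
      refine Partrec.bind hΨ ?_
      exact (hΦ.comp Computable.snd (Computable.snd.comp Computable.fst)).to₂
    · intro n τ τ' v hτ hv
      simp only [Part.mem_bind_iff] at hv ⊢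
      obtain ⟨a, ha, hb⟩ := hv
      exact ⟨a, mΨ _ _ _ _ hτ ha, mΦ _ _ _ _ hτ hb⟩
    · intro n v
      simp only [Part.bind_eq_bind, Part.mem_bind_iff]
      constructor
      · rintro ⟨a, ha, hb⟩
        obtain ⟨L, hL⟩ := (eΨ n a).1 ha
        obtain ⟨L', hL'⟩ := (eΦ a v).1 hb
        exact ⟨max L L', a, mΨ _ _ _ _ (pl_prefix x (le_max_left _ _)) hL,
          mΦ _ _ _ _ (pl_prefix x (le_max_right _ _)) hL'⟩
      · rintro ⟨L, a, ha, hb⟩
        exact ⟨a, (eΨ n a).2 ⟨L, ha⟩, (eΦ a v).2 ⟨L, hb⟩⟩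
  | @prec f h _ _ ihf ihh =>
    obtain ⟨Φ, hΦ, mΦ, eΦ⟩ := ihf
    obtain ⟨Ψ, hΨ, mΨ, eΨ⟩ := ihh
    let R : ℕ → List ℕ → ℕ → Part ℕ := fun a τ n =>
      n.rec (Φ a τ) fun y IH => IH.bind fun i => Ψ (Nat.pair a (Nat.pair y i)) τ
    refine ⟨fun p τ => R (Nat.unpair p).1 τ (Nat.unpair p).2, ?_, ?_, ?_⟩
    · show Partrec fun q : ℕ × List ℕ => R (Nat.unpair q.1).1 q.2 (Nat.unpair q.1).2
      have h1 : Partrec fun q : ℕ × List ℕ => Φ (Nat.unpair q.1).1 q.2 :=
        hΦ.comp (Computable.fst.comp (Computable.unpair.comp Computable.fst)) Computable.snd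
      have h2 : Partrec₂ fun (q : ℕ × List ℕ) (yi : ℕ × ℕ) =>
          Ψ (Nat.pair (Nat.unpair q.1).1 (Nat.pair yi.1 yi.2)) q.2 := by
        show Partrec fun t : (ℕ × List ℕ) × (ℕ × ℕ) =>
          Ψ (Nat.pair (Nat.unpair t.1.1).1 (Nat.pair t.2.1 t.2.2)) t.1.2
        refine hΨ.comp ?_ (Computable.snd.comp Computable.fst)
        exact Primrec₂.natPair.to_comp.comp (Computable.fst.comp (Computable.unpair.comp
          (Computable.fst.comp Computable.fst))) (Primrec₂.natPair.to_comp.comp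
          (Computable.fst.comp Computable.snd) (Computable.snd.comp Computable.snd))
      exact Partrec.nat_rec (Computable.snd.comp (Computable.unpair.comp Computable.fst)) h1 h2
    · intro p τ τ' v hτ
      have : ∀ a n v, v ∈ R a τ n → v ∈ R a τ' n := by
        intro a n
        induction n with
        | zero => exact fun v hv => mΦ _ _ _ _ hτ hv
        | succ n ih =>
          intro v hv
          obtain ⟨i, hi, hv⟩ := Part.mem_bind_iff.1 hv
          exact Part.mem_bind_iff.2 ⟨i, ih i hi, mΨ _ _ _ _ hτ hv⟩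
      exact this _ _ v
    · intro p v
      have hmono : ∀ a n v L L', L ≤ L' → v ∈ R a (pl x L) n → v ∈ R a (pl x L') n := by
        intro a n
        induction n with
        | zero => exact fun v L L' hL hv => mΦ _ _ _ _ (pl_prefix x hL) hv
        | succ n ih =>
          intro v L L' hL hv
          obtain ⟨i, hi, hv⟩ := Part.mem_bind_iff.1 hv
          exact Part.mem_bind_iff.2 ⟨i, ih i L L' hL hi, mΨ _ _ _ _ (pl_prefix x hL) hv⟩
      have key : ∀ a n v, v ∈ (n.rec (f a) fun y IH => IH.bind fun i =>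
          h (Nat.pair a (Nat.pair y i)) : Part ℕ) ↔ ∃ L, v ∈ R a (pl x L) n := by
        intro a n
        induction n with
        | zero => exact fun v => eΦ a v
        | succ n ih =>
          intro v
          constructor
          · intro hv
            obtain ⟨i, hi, hv⟩ := Part.mem_bind_iff.1 hv
            obtain ⟨L, hL⟩ := (ih i).1 hi
            obtain ⟨L', hL'⟩ := (eΨ _ v).1 hv
            exact ⟨max L L', Part.mem_bind_iff.2 ⟨i, hmono _ _ _ _ _ (le_max_left _ _) hL,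
              mΨ _ _ _ _ (pl_prefix x (le_max_right _ _)) hL'⟩⟩
          · rintro ⟨L, hv⟩
            obtain ⟨i, hi, hv⟩ := Part.mem_bind_iff.1 hv
            exact Part.mem_bind_iff.2 ⟨i, (ih i).2 ⟨L, hi⟩, (eΨ _ v).2 ⟨L, hv⟩⟩
      exact key (Nat.unpair p).1 (Nat.unpair p).2 v
  | @rfind f _ ihf =>
    obtain ⟨Φ, hΦ, mΦ, eΦ⟩ := ihf
    refine ⟨fun a τ => Nat.rfind fun n => (Φ (Nat.pair a n) τ).map fun m => decide (m = 0),
      ?_, ?_, ?_⟩
    · show Partrec fun q : ℕ × List ℕ => Nat.rfind fun n =>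
        (Φ (Nat.pair q.1 n) q.2).map fun m => decide (m = 0)
      refine Partrec.rfind ?_
      show Partrec fun r : (ℕ × List ℕ) × ℕ =>
        (Φ (Nat.pair r.1.1 r.2) r.1.2).map fun m => decide (m = 0)
      refine Partrec.map ?_ ?_
      · exact hΦ.comp (Primrec₂.natPair.to_comp.comp (Computable.fst.comp Computable.fst)
          Computable.snd) (Computable.snd.comp Computable.fst)
      · have : Primrec fun m : ℕ => decide (m = 0) :=
          PrimrecPred.decide (PrimrecRel.comp Primrec.eq Primrec.id (Primrec.const 0))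
        exact (this.to_comp.comp Computable.snd).to₂
    · intro a τ τ' v hτ hv
      rw [Nat.mem_rfind] at hv ⊢
      refine ⟨?_, fun {m} hm => ?_⟩
      · obtain ⟨w, hw, hw'⟩ := (Part.mem_map_iff _).1 hv.1
        exact (Part.mem_map_iff _).2 ⟨w, mΦ _ _ _ _ hτ hw, hw'⟩
      · obtain ⟨w, hw, hw'⟩ := (Part.mem_map_iff _).1 (hv.2 hm)
        exact (Part.mem_map_iff _).2 ⟨w, mΦ _ _ _ _ hτ hw, hw'⟩
    · intro a v
      constructor
      · intro hv
        rw [Nat.mem_rfind] at hv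
        obtain ⟨w, hw, hw'⟩ := (Part.mem_map_iff _).1 hv.1
        obtain ⟨L, hL⟩ := (eΦ _ w).1 hw
        have h1 : ∀ m < v, ∃ L, ∃ w, w ∈ Φ (Nat.pair a m) (pl x L) ∧ decide (w = 0) = false := by
          intro m hm
          obtain ⟨w, hw, hw'⟩ := (Part.mem_map_iff _).1 (hv.2 hm)
          obtain ⟨L, hL⟩ := (eΦ _ w).1 hw
          exact ⟨L, w, hL, hw'⟩
        obtain ⟨L', hL'⟩ := bounded_max (P := fun m L => ∃ w, w ∈ Φ (Nat.pair a m) (pl x L) ∧
          decide (w = 0) = false) (fun m L L' h ⟨w, hw, hw'⟩ =>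
            ⟨w, mΦ _ _ _ _ (pl_prefix x h) hw, hw'⟩) v h1
        refine ⟨max L L', ?_⟩
        rw [Nat.mem_rfind]
        refine ⟨(Part.mem_map_iff _).2 ⟨w, mΦ _ _ _ _ (pl_prefix x (le_max_left _ _)) hL, hw'⟩,
          fun {m} hm => ?_⟩
        obtain ⟨w, hw, hw'⟩ := hL' m hm
        exact (Part.mem_map_iff _).2 ⟨w, mΦ _ _ _ _ (pl_prefix x (le_max_right _ _)) hw, hw'⟩
      · rintro ⟨L, hv⟩
        rw [Nat.mem_rfind] at hv ⊢
        refine ⟨?_, fun {m} hm => ?_⟩
        · obtain ⟨w, hw, hw'⟩ := (Part.mem_map_iff _).1 hv.1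
          exact (Part.mem_map_iff _).2 ⟨w, (eΦ _ w).2 ⟨L, hw⟩, hw'⟩
        · obtain ⟨w, hw, hw'⟩ := (Part.mem_map_iff _).1 (hv.2 hm)
          exact (Part.mem_map_iff _).2 ⟨w, (eΦ _ w).2 ⟨L, hw⟩, hw'⟩

end Pool.Agent.MCJ
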