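import Mathlib
import Pool.Agent.Lib.MCJ.Turing
import Pool.Agent.Lib.MCJ.Use

namespace Pool.Agent.MCJ

open Nat.Partrec (Code)
open Encodable Denumerable

/-- `B` is recursively enumerable in `x`. -/
def REin (x : ℕ → ℕ) (B : ℕ → Prop) : Prop :=
  ∃ u, Red u x ∧ ∀ n, B n ↔ ∃ m, u (Nat.pair n m) = 0

open Classical in
/-- The Turing jump: the `e`-th partial recursive function halts on (the code of) some initial
segment of `x`. -/
noncomputable def jmp (x : ℕ → ℕ) : ℕ → ℕ := fun e =>
  if ∃ L, ((ofNat Code e).eval (encode (pl x L))).Dom then 1 else 0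

theorem jmp_eq_one {x : ℕ → ℕ} {e : ℕ} :
    jmp x e = 1 ↔ ∃ L, ((ofNat Code e).eval (encode (pl x L))).Dom := by
  unfold jmp
  split_ifs with h <;> simp [h]

/-- Event number `e` for the pair `X`, `G`. -/
def Meets (e : ℕ) (X G : ℕ → ℕ) : Prop :=
  ∃ L, ((ofNat Code e).eval (Nat.pair (encode (pl X L)) (encode (pl G L)))).Dom

/-- Decoding of lists. -/
def dl (t : ℕ) : List ℕ := (decode (α := List ℕ) t).getD []

theorem dl_encode (l : List ℕ) : dl (encode l) = l := by
  unfold dl
  rw [encodek]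
  rfl

theorem primrec_dl : Primrec dl :=
  Primrec.option_getD.comp Primrec.decode (Primrec.const [])

theorem pl_succ (x : ℕ → ℕ) (L : ℕ) : pl x (L + 1) = pl x L ++ [x L] := by
  unfold pl
  rw [List.range_succ, List.map_append]
  rfl

theorem primrec_app : Primrec₂ fun t v : ℕ => encode (dl t ++ [v]) := by
  show Primrec fun q : ℕ × ℕ => encode (dl q.1 ++ [q.2])
  exact Primrec.encode.comp (Primrec.list_append.comp (primrec_dl.comp Primrec.fst)
    (Primrec.list_cons.comp Primrec.snd (Primrec.const [])))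

theorem red_pl {x y : ℕ → ℕ} (hx : Red x y) : Red (fun L => encode (pl x L)) y := by
  have hs : Red (fun p => encode (dl (Nat.unpair p).2 ++ [x (Nat.unpair p).1])) y :=
    red_prim2 primrec_app (red_prim Nat.Primrec.right y) (red_comp hx
      (red_prim Nat.Primrec.left y))
  refine red_iter (encode ([] : List ℕ)) hs rfl (fun n => ?_)
  simp only [Nat.unpair_pair, dl_encode, pl_succ]

theorem REin.mono {x y : ℕ → ℕ} {B : ℕ → Prop} (h : Red x y) (hB : REin x B) : REin y B := by
  obtain ⟨u, hu, hu'⟩ := hB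
  exact ⟨u, hu.trans h, hu'⟩

theorem dom_iff_evaln {c : Code} {n : ℕ} :
    (c.eval n).Dom ↔ ∃ k, (c.evaln k n).isSome = true := by
  constructor
  · intro h
    obtain ⟨k, hk⟩ := Nat.Partrec.Code.evaln_complete.1 (Part.get_mem h)
    exact ⟨k, Option.isSome_iff_exists.2 ⟨_, hk⟩⟩
  · rintro ⟨k, hk⟩
    obtain ⟨v, hv⟩ := Option.isSome_iff_exists.1 hk
    exact Part.dom_iff_mem.2 ⟨v, Nat.Partrec.Code.evaln_sound hv⟩

/-- The halting test with a bound on the number of steps. -/
@[irreducible] def ht (k e t : ℕ) : ℕ := if ((ofNat Code e).evaln k t).isSome = true then 0 else 1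

theorem ht_eq_zero {k e t : ℕ} : ht k e t = 0 ↔ ((ofNat Code e).evaln k t).isSome = true := by
  unfold ht
  split_ifs with h <;> simp [h]

theorem primrec_ht : Primrec fun q : ℕ × ℕ × ℕ => ht q.1 q.2.1 q.2.2 := by
  have h1 : Primrec fun q : ℕ × ℕ × ℕ => (ofNat Code q.2.1).evaln q.1 q.2.2 :=
    Nat.Partrec.Code.primrec_evaln.comp (Primrec.pair (Primrec.pair Primrec.fst
      ((Primrec.ofNat Code).comp (Primrec.fst.comp Primrec.snd)))
      (Primrec.snd.comp Primrec.snd))
  have h2 : Primrec fun q : ℕ × ℕ × ℕ => ((ofNat Code q.2.1).evaln q.1 q.2.2).isSome :=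
    Primrec.option_isSome.comp h1
  have h3 : Primrec fun q : ℕ × ℕ × ℕ =>
      if ((ofNat Code q.2.1).evaln q.1 q.2.2).isSome = true then 0 else 1 :=
    Primrec.ite (PrimrecRel.comp Primrec.eq h2 (Primrec.const true))
      (Primrec.const 0) (Primrec.const 1)
  refine h3.of_eq fun q => ?_
  unfold ht
  rfl

theorem red_ht {k e t y : ℕ → ℕ} (hk : Red k y) (he : Red e y) (ht' : Red t y) :
    Red (fun n => ht (k n) (e n) (t n)) y := by
  have hp : Primrec₂ fun a b : ℕ => ht a (Nat.unpair b).1 (Nat.unpair b).2 := by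
    show Primrec fun q : ℕ × ℕ => ht q.1 (Nat.unpair q.2).1 (Nat.unpair q.2).2
    have h := primrec_ht.comp (g := fun q : ℕ × ℕ =>
      (q.1, (Nat.unpair q.2).1, (Nat.unpair q.2).2)) (Primrec.pair Primrec.fst (Primrec.pair
      (Primrec.fst.comp (Primrec.unpair.comp Primrec.snd))
      (Primrec.snd.comp (Primrec.unpair.comp Primrec.snd))))
    exact h
  have h := red_prim2 hp hk (red_pair he ht')
  simpa using h

theorem red_fst {u y : ℕ → ℕ} (hu : Red u y) : Red (fun n => (Nat.unpair (u n)).1) y :=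
  red_comp (red_prim Nat.Primrec.left y) hu

theorem red_snd {u y : ℕ → ℕ} (hu : Red u y) : Red (fun n => (Nat.unpair (u n)).2) y :=
  red_comp (red_prim Nat.Primrec.right y) hu

theorem rein_jmp (x : ℕ → ℕ) : REin x (fun e => jmp x e = 1) := by
  refine ⟨fun q => ht (Nat.unpair (Nat.unpair q).2).1 (Nat.unpair q).1
    (encode (pl x (Nat.unpair (Nat.unpair q).2).2)), ?_, fun e => ?_⟩
  · have h1 : Red (fun q => (Nat.unpair (Nat.unpair q).2).1) x := red_fst (red_snd (red_id x))
    have h2 : Red (fun q => (Nat.unpair q).1) x := red_fst (red_id x)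
    have h3 : Red (fun q => (Nat.unpair (Nat.unpair q).2).2) x := red_snd (red_snd (red_id x))
    have h4 : Red (fun q => encode (pl x (Nat.unpair (Nat.unpair q).2).2)) x :=
      red_comp (u := fun L => encode (pl x L)) (v := fun q => (Nat.unpair (Nat.unpair q).2).2)
        (red_pl (Red.refl x)) h3
    exact red_ht h1 h2 h4
  · show jmp x e = 1 ↔ _
    rw [jmp_eq_one]
    constructor
    · rintro ⟨L, hL⟩
      obtain ⟨k, hk⟩ := dom_iff_evaln.1 hL
      refine ⟨Nat.pair k L, ?_⟩
      simp only [Nat.unpair_pair]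
      exact ht_eq_zero.2 hk
    · rintro ⟨m, hm⟩
      simp only [Nat.unpair_pair] at hm
      exact ⟨(Nat.unpair m).2, dom_iff_evaln.2 ⟨(Nat.unpair m).1, ht_eq_zero.1 hm⟩⟩

theorem rein_meets {X G y : ℕ → ℕ} (hX : Red X y) (hG : Red G y) :
    REin y (fun e => Meets e X G) := by
  refine ⟨fun q => ht (Nat.unpair (Nat.unpair q).2).1 (Nat.unpair q).1
    (Nat.pair (encode (pl X (Nat.unpair (Nat.unpair q).2).2))
      (encode (pl G (Nat.unpair (Nat.unpair q).2).2))), ?_, fun e => ?_⟩
  · have h1 : Red (fun q => (Nat.unpair (Nat.unpair q).2).1) y := red_fst (red_snd (red_id y))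
    have h2 : Red (fun q => (Nat.unpair q).1) y := red_fst (red_id y)
    have h3 : Red (fun q => (Nat.unpair (Nat.unpair q).2).2) y := red_snd (red_snd (red_id y))
    have h4 : Red (fun q => encode (pl X (Nat.unpair (Nat.unpair q).2).2)) y :=
      red_comp (u := fun L => encode (pl X L)) (v := fun q => (Nat.unpair (Nat.unpair q).2).2)
        (red_pl hX) h3
    have h5 : Red (fun q => encode (pl G (Nat.unpair (Nat.unpair q).2).2)) y :=
      red_comp (u := fun L => encode (pl G L)) (v := fun q => (Nat.unpair (Nat.unpair q).2).2)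
        (red_pl hG) h3
    exact red_ht h1 h2 (red_pair h4 h5)
  · constructor
    · rintro ⟨L, hL⟩
      obtain ⟨k, hk⟩ := dom_iff_evaln.1 hL
      refine ⟨Nat.pair k L, ?_⟩
      simp only [Nat.unpair_pair]
      exact ht_eq_zero.2 hk
    · rintro ⟨m, hm⟩
      simp only [Nat.unpair_pair] at hm
      exact ⟨(Nat.unpair m).2, dom_iff_evaln.2 ⟨(Nat.unpair m).1, ht_eq_zero.1 hm⟩⟩

/-- Partial functions coded with a parameter. -/
theorem exists_index (Ψ : ℕ → ℕ →. ℕ) (hΨ : Partrec₂ Ψ) :
    ∃ s : ℕ → ℕ, Primrec s ∧ ∀ n t, (ofNat Code (s n)).eval t = Ψ n t := by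
  have h1 : Nat.Partrec fun q => Ψ (Nat.unpair q).1 (Nat.unpair q).2 := by
    have : Partrec fun q : ℕ => Ψ (Nat.unpair q).1 (Nat.unpair q).2 :=
      hΨ.comp (Computable.fst.comp Computable.unpair) (Computable.snd.comp Computable.unpair)
    exact Partrec.nat_iff.1 this
  obtain ⟨c, hc⟩ := Nat.Partrec.Code.exists_code.1 h1
  refine ⟨fun n => encode (Code.curry c n), ?_, fun n t => ?_⟩
  · exact Primrec.encode.comp (Nat.Partrec.Code.primrec₂_curry.comp (Primrec.const c) Primrec.id)
  · rw [ofNat_encode, Nat.Partrec.Code.eval_curry, hc]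
    simp

/-- Restriction of a value to `0`. -/
def zr (p : Part ℕ) : Part ℕ := p.bind fun v => if v = 0 then Part.some 0 else Part.none

theorem zr_dom {p : Part ℕ} : (zr p).Dom ↔ 0 ∈ p := by
  unfold zr
  constructor
  · intro h
    obtain ⟨w, hw⟩ := Part.dom_iff_mem.1 h
    obtain ⟨v, hv, hw⟩ := Part.mem_bind_iff.1 hw
    by_cases h0 : v = 0
    · rw [← h0]; exact hv
    · rw [if_neg h0] at hw; exact absurd hw (Part.notMem_none w)
  · intro h
    exact Part.dom_iff_mem.2 ⟨0, Part.mem_bind_iff.2 ⟨0, h, by simp⟩⟩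

theorem partrec_zr {α : Type*} [Primcodable α] {f : α →. ℕ} (hf : Partrec f) :
    Partrec fun a => zr (f a) := by
  refine Partrec.bind hf ?_
  show Partrec fun q : α × ℕ => if q.2 = 0 then Part.some 0 else Part.none
  have h : Partrec fun q : α × ℕ => ((if q.2 = 0 then some 0 else none : Option ℕ) : Part ℕ) := by
    refine Computable.ofOption (Primrec.to_comp ?_)
    exact Primrec.ite (PrimrecRel.comp Primrec.eq Primrec.snd (Primrec.const 0))
      (Primrec.const (some 0)) (Primrec.const none)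
  refine h.of_eq fun q => ?_
  split_ifs <;> rfl

/-- Every set r.e. in `x` is many-one reducible to the jump of `x`. -/
theorem jmp_complete {x : ℕ → ℕ} {B : ℕ → Prop} (hB : REin x B) :
    ∃ s : ℕ → ℕ, Primrec s ∧ ∀ n, B n ↔ jmp x (s n) = 1 := by
  obtain ⟨u, hu, hu'⟩ := hB
  obtain ⟨Φ, hΦ, mΦ, eΦ⟩ := cont_of_rec (red_iff.1 hu)
  obtain ⟨s, hs, hs'⟩ := exists_index
    (fun n t => zr (Φ (Nat.pair n (Nat.unpair (dl t).length).1) (dl t))) (by
      show Partrec fun q : ℕ × ℕ =>
        zr (Φ (Nat.pair q.1 (Nat.unpair (dl q.2).length).1) (dl q.2))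
      refine partrec_zr (hΦ.comp ?_ (primrec_dl.comp Primrec.snd).to_comp)
      exact (Primrec₂.natPair.comp Primrec.fst (Primrec.fst.comp (Primrec.unpair.comp
        (Primrec.list_length.comp (primrec_dl.comp Primrec.snd))))).to_comp)
  refine ⟨s, hs, fun n => ?_⟩
  rw [hu', jmp_eq_one]
  constructor
  · rintro ⟨m, hm⟩
    have h1 : 0 ∈ (Part.some (u (Nat.pair n m)) : Part ℕ) := by rw [hm]; simp
    obtain ⟨L, hL⟩ := (eΦ _ 0).1 h1
    refine ⟨Nat.pair m L, ?_⟩
    rw [hs', zr_dom, dl_encode, pl_length, Nat.unpair_pair]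
    exact mΦ _ _ _ _ (pl_prefix x (Nat.right_le_pair m L)) hL
  · rintro ⟨L, hL⟩
    rw [hs', zr_dom, dl_encode, pl_length] at hL
    refine ⟨(Nat.unpair L).1, ?_⟩
    have h1 := (eΦ _ 0).2 ⟨L, hL⟩
    exact (Part.mem_some_iff.1 h1).symm

/-- Every set r.e. in `X` of strings is an event. -/
theorem meets_complete {X : ℕ → ℕ} {W : ℕ → Prop} (hW : REin X W) :
    ∃ e, ∀ G, (∃ L, W (encode (pl G L))) ↔ Meets e X G := by
  obtain ⟨u, hu, hu'⟩ := hW
  obtain ⟨Φ, hΦ, mΦ, eΦ⟩ := cont_of_rec (red_iff.1 hu)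
  obtain ⟨s, _, hs'⟩ := exists_index
    (fun _ q => zr (Φ (Nat.pair (encode ((dl (Nat.unpair q).2).take
      (Nat.unpair (Nat.unpair (dl (Nat.unpair q).1).length).1).1))
      (Nat.unpair (Nat.unpair (dl (Nat.unpair q).1).length).1).2) (dl (Nat.unpair q).1))) (by
      show Partrec fun r : ℕ × ℕ => zr (Φ (Nat.pair (encode ((dl (Nat.unpair r.2).2).take
        (Nat.unpair (Nat.unpair (dl (Nat.unpair r.2).1).length).1).1))
        (Nat.unpair (Nat.unpair (dl (Nat.unpair r.2).1).length).1).2) (dl (Nat.unpair r.2).1))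
      have h1 : Primrec fun r : ℕ × ℕ => dl (Nat.unpair r.2).1 :=
        primrec_dl.comp (Primrec.fst.comp (Primrec.unpair.comp Primrec.snd))
      have h2 : Primrec fun r : ℕ × ℕ => dl (Nat.unpair r.2).2 :=
        primrec_dl.comp (Primrec.snd.comp (Primrec.unpair.comp Primrec.snd))
      have h3 : Primrec fun r : ℕ × ℕ => Nat.unpair (Nat.unpair (dl (Nat.unpair r.2).1).length).1 :=
        Primrec.unpair.comp (Primrec.fst.comp (Primrec.unpair.comp
          (Primrec.list_length.comp h1)))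
      have h4 : Primrec fun r : ℕ × ℕ => (dl (Nat.unpair r.2).2).take
          (Nat.unpair (Nat.unpair (dl (Nat.unpair r.2).1).length).1).1 :=
        Primrec.list_take.comp (Primrec.fst.comp h3) h2
      have h5 : Primrec fun r : ℕ × ℕ => encode ((dl (Nat.unpair r.2).2).take
          (Nat.unpair (Nat.unpair (dl (Nat.unpair r.2).1).length).1).1) :=
        Primrec.encode.comp h4
      have h6 : Primrec fun r : ℕ × ℕ =>
          (Nat.unpair (Nat.unpair (dl (Nat.unpair r.2).1).length).1).2 :=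
        Primrec.snd.comp h3
      have h7 : Primrec fun r : ℕ × ℕ => Nat.pair (encode ((dl (Nat.unpair r.2).2).take
          (Nat.unpair (Nat.unpair (dl (Nat.unpair r.2).1).length).1).1))
          (Nat.unpair (Nat.unpair (dl (Nat.unpair r.2).1).length).1).2 :=
        Primrec₂.natPair.comp h5 h6
      exact partrec_zr (hΦ.comp h7.to_comp h1.to_comp))
  refine ⟨s 0, fun G => ?_⟩
  have htake : ∀ i L, i ≤ L → (pl G L).take i = pl G i := by
    intro i L h
    obtain ⟨ρ, hρ⟩ := pl_prefix G h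
    rw [← hρ, List.take_append_of_le_length (by rw [pl_length]),
      List.take_of_length_le (by rw [pl_length])]
  unfold Meets
  constructor
  · rintro ⟨i, hi⟩
    obtain ⟨m, hm⟩ := (hu' _).1 hi
    have h1 : 0 ∈ (Part.some (u (Nat.pair (encode (pl G i)) m)) : Part ℕ) := by rw [hm]; simp
    obtain ⟨L, hL⟩ := (eΦ _ 0).1 h1
    refine ⟨Nat.pair (Nat.pair i m) L, ?_⟩
    rw [hs', zr_dom]
    simp only [Nat.unpair_pair, dl_encode, pl_length]
    rw [htake i _ (le_trans (Nat.left_le_pair i m) (Nat.left_le_pair _ L))]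
    exact mΦ _ _ _ _ (pl_prefix X (Nat.right_le_pair _ L)) hL
  · rintro ⟨L, hL⟩
    rw [hs', zr_dom] at hL
    simp only [Nat.unpair_pair, dl_encode, pl_length] at hL
    rw [htake _ L (le_trans (Nat.unpair_left_le _) (Nat.unpair_left_le L))] at hL
    refine ⟨(Nat.unpair (Nat.unpair L).1).1, (hu' _).2 ⟨(Nat.unpair (Nat.unpair L).1).2, ?_⟩⟩
    exact (Part.mem_some_iff.1 ((eΦ _ 0).2 ⟨L, hL⟩)).symm

/-- The jump of the join reduces to the events. -/
theorem jmp_join_meets (X G : ℕ → ℕ) :
    ∃ s : ℕ → ℕ, Primrec s ∧ ∀ e, jmp (join X G) e = 1 ↔ Meets (s e) X G := by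
  let θ : List ℕ → List ℕ → List ℕ := fun τ ρ =>
    (List.range τ.length).map fun k => if k % 2 = 0 then τ.getD (k / 2) 0 else ρ.getD (k / 2) 0
  have hθ : Primrec₂ θ := by
    show Primrec fun q : List ℕ × List ℕ => (List.range q.1.length).map
      fun k => if k % 2 = 0 then q.1.getD (k / 2) 0 else q.2.getD (k / 2) 0
    refine Primrec.list_map (Primrec.list_range.comp (Primrec.list_length.comp Primrec.fst)) ?_
    show Primrec fun r : (List ℕ × List ℕ) × ℕ =>
      if r.2 % 2 = 0 then r.1.1.getD (r.2 / 2) 0 else r.1.2.getD (r.2 / 2) 0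
    refine Primrec.ite (PrimrecRel.comp Primrec.eq (Primrec.nat_mod.comp Primrec.snd
      (Primrec.const 2)) (Primrec.const 0)) ?_ ?_
    · exact (Primrec.list_getD 0).comp (Primrec.fst.comp Primrec.fst)
        (Primrec.nat_div.comp Primrec.snd (Primrec.const 2))
    · exact (Primrec.list_getD 0).comp (Primrec.snd.comp Primrec.fst)
        (Primrec.nat_div.comp Primrec.snd (Primrec.const 2))
  have hθ' : ∀ L, θ (pl X L) (pl G L) = pl (join X G) L := by
    intro L
    show (List.range (pl X L).length).map _ = (List.range L).map _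
    rw [pl_length]
    refine List.map_congr_left fun k hk => ?_
    have hk' := List.mem_range.1 hk
    have hk2 : k / 2 < L := lt_of_le_of_lt (Nat.div_le_self k 2) hk'
    unfold join
    simp only [List.getD_eq_getElem?_getD, pl_getElem?, if_pos hk2, Option.getD_some]
  obtain ⟨s, hs, hs'⟩ := exists_index
    (fun e q => (ofNat Code e).eval (encode (θ (dl (Nat.unpair q).1) (dl (Nat.unpair q).2)))) (by
      show Partrec fun r : ℕ × ℕ => (ofNat Code r.1).eval
        (encode (θ (dl (Nat.unpair r.2).1) (dl (Nat.unpair r.2).2)))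
      refine Nat.Partrec.Code.eval_part.comp ((Primrec.ofNat Code).comp Primrec.fst).to_comp ?_
      exact (Primrec.encode.comp (hθ.comp (primrec_dl.comp (Primrec.fst.comp
        (Primrec.unpair.comp Primrec.snd))) (primrec_dl.comp (Primrec.snd.comp
        (Primrec.unpair.comp Primrec.snd))))).to_comp)
  refine ⟨s, hs, fun e => ?_⟩
  rw [jmp_eq_one]
  unfold Meets
  refine exists_congr fun L => ?_
  rw [hs']
  simp only [Nat.unpair_pair, dl_encode, hθ']

open Classical in
theorem red_char {x : ℕ → ℕ} {B : ℕ → Prop} (hB : REin x B) :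
    Red (fun n => if B n then 1 else 0) (jmp x) := by
  obtain ⟨s, hs, hs'⟩ := jmp_complete hB
  have h := red_comp (Red.refl (jmp x)) (red_prim' hs (jmp x))
  have e : (fun n => jmp x (s n)) = fun n => if B n then 1 else 0 := by
    funext n
    by_cases hn : B n
    · rw [if_pos hn]; exact (hs' n).1 hn
    · rw [if_neg hn]
      have h1 : jmp x (s n) ≠ 1 := fun h => hn ((hs' n).2 h)
      unfold jmp at h1 ⊢
      split_ifs at h1 ⊢ with h2
      · exact absurd rfl h1
      · rfl
  rwa [e] at h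

theorem jmp_zero_or_one (x : ℕ → ℕ) (e : ℕ) : jmp x e = 0 ∨ jmp x e = 1 := by
  unfold jmp
  split_ifs <;> simp

theorem jmp_mono {x y : ℕ → ℕ} (h : Red x y) : Red (jmp x) (jmp y) := by
  have h1 := red_char ((rein_jmp x).mono h)
  refine (?_ : _ = jmp x) ▸ h1
  funext n
  rcases jmp_zero_or_one x n with h | h <;> simp [h]

theorem red_jmp (x : ℕ → ℕ) : Red x (jmp x) := by
  have hB : REin x (fun q => x (Nat.unpair q).1 = (Nat.unpair q).2) := by
    refine ⟨fun r => 1 - (if x (Nat.unpair (Nat.unpair r).1).1 =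
      (Nat.unpair (Nat.unpair r).1).2 then 1 else 0), ?_, fun n => ?_⟩
    · exact red_sub (red_const 1 _) (red_eqv (red_comp (Red.refl x)
        (red_fst (red_fst (red_id x)))) (red_snd (red_fst (red_id x))))
    · constructor
      · intro h
        exact ⟨0, by simp [h]⟩
      · rintro ⟨m, hm⟩
        by_contra h
        simp [h] at hm
  have h1 := red_char hB
  have h2 := red_sub (red_const 1 _) h1
  refine red_find h2 ?_ ?_
  · intro n
    simp
  · intro n m hm
    have : x n ≠ m := by omega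
    simp [this]

end Pool.Agent.MCJ
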