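import Mathlib
import Pool.Agent.Lib.MCJ.Turing
import Pool.Agent.Lib.MCJ.Use
import Pool.Agent.Lib.MCJ.Jump

namespace Pool.Agent.MCJ

open Nat.Partrec (Code)
open Encodable Denumerable

/-- Event number `e` has happened for the finite string `τ`. -/
def Ev (e : ℕ) (X : ℕ → ℕ) (τ : List ℕ) : Prop :=
  ∃ L, L ≤ τ.length ∧
    ((ofNat Code e).eval (Nat.pair (encode (pl X L)) (encode (τ.take L)))).Dom

theorem Ev.mono {e : ℕ} {X : ℕ → ℕ} {τ τ' : List ℕ} (h : τ <+: τ') (hE : Ev e X τ) :
    Ev e X τ' := by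
  obtain ⟨L, hL, hd⟩ := hE
  obtain ⟨ρ, rfl⟩ := h
  refine ⟨L, by rw [List.length_append]; omega, ?_⟩
  rwa [List.take_append_of_le_length hL]

theorem pl_take (G : ℕ → ℕ) {i L : ℕ} (h : i ≤ L) : (pl G L).take i = pl G i := by
  obtain ⟨ρ, hρ⟩ := pl_prefix G h
  rw [← hρ, List.take_append_of_le_length (by rw [pl_length]),
    List.take_of_length_le (by rw [pl_length])]

theorem meets_iff {e : ℕ} {X G : ℕ → ℕ} : Meets e X G ↔ ∃ L, Ev e X (pl G L) := by
  constructor
  · rintro ⟨L, hL⟩
    refine ⟨L, L, by rw [pl_length], ?_⟩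
    rwa [pl_take G (le_refl L)]
  · rintro ⟨L, i, hi, hd⟩
    rw [pl_length] at hi
    rw [pl_take G hi] at hd
    exact ⟨i, hd⟩

/-- The function extending a finite string by zeros. -/
def fn (τ : List ℕ) : ℕ → ℕ := fun n => τ.getD n 0

theorem pl_eq_of {G : ℕ → ℕ} {τ : List ℕ} (h : ∀ n < τ.length, τ[n]? = some (G n)) :
    pl G τ.length = τ := by
  apply List.ext_getElem?
  intro n
  rw [pl_getElem?]
  split_ifs with hn
  · exact (h n hn).symm
  · rw [List.getElem?_eq_none (not_lt.1 hn)]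

theorem pl_fn (τ : List ℕ) : pl (fn τ) τ.length = τ := by
  apply pl_eq_of
  intro n hn
  unfold fn
  rw [List.getElem?_eq_getElem hn, List.getD_eq_getElem _ _ hn]

/-- `G` is `1`-generic over `Y`. -/
def Gen (Y G : ℕ → ℕ) : Prop :=
  ∀ W : ℕ → Prop, REin Y W → (∃ L, W (encode (pl G L))) ∨
    ∃ L, ∀ G' : ℕ → ℕ, pl G' L = pl G L → ∀ L', ¬ W (encode (pl G' L'))

theorem Gen.mono {X Y G : ℕ → ℕ} (h : Red X Y) (hG : Gen Y G) : Gen X G :=
  fun W hW => hG W (hW.mono h)

/-- The test for the event `e` and the extension `τ ρ`, `q = ⟨⟨e, τ⟩, ⟨⟨j, L⟩, ρ⟩⟩`. -/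
def tsE (X : ℕ → ℕ) (q : ℕ) : ℕ :=
  (if (Nat.unpair (Nat.unpair (Nat.unpair q).2).1).2 ≤ (dl (Nat.unpair (Nat.unpair q).1).2 ++
      dl (Nat.unpair (Nat.unpair q).2).2).length then 0 else 1) +
    ht (Nat.unpair (Nat.unpair (Nat.unpair q).2).1).1 (Nat.unpair (Nat.unpair q).1).1
      (Nat.pair (encode (pl X (Nat.unpair (Nat.unpair (Nat.unpair q).2).1).2))
        (encode ((dl (Nat.unpair (Nat.unpair q).1).2 ++ dl (Nat.unpair (Nat.unpair q).2).2).take
          (Nat.unpair (Nat.unpair (Nat.unpair q).2).1).2)))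

theorem red_tsE {X y : ℕ → ℕ} (hX : Red X y) : Red (tsE X) y := by
  have p1 : Primrec fun q : ℕ => (Nat.unpair (Nat.unpair q).1).1 :=
    Primrec.fst.comp (Primrec.unpair.comp (Primrec.fst.comp Primrec.unpair))
  have p2 : Primrec fun q : ℕ => dl (Nat.unpair (Nat.unpair q).1).2 :=
    primrec_dl.comp (Primrec.snd.comp (Primrec.unpair.comp (Primrec.fst.comp Primrec.unpair)))
  have p3 : Primrec fun q : ℕ => Nat.unpair (Nat.unpair q).2 :=
    Primrec.unpair.comp (Primrec.snd.comp Primrec.unpair)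
  have p4 : Primrec fun q : ℕ => dl (Nat.unpair (Nat.unpair q).2).2 :=
    primrec_dl.comp (Primrec.snd.comp p3)
  have p5 : Primrec fun q : ℕ => Nat.unpair (Nat.unpair (Nat.unpair q).2).1 :=
    Primrec.unpair.comp (Primrec.fst.comp p3)
  have p6 : Primrec fun q : ℕ => (Nat.unpair (Nat.unpair (Nat.unpair q).2).1).1 :=
    Primrec.fst.comp p5
  have p7 : Primrec fun q : ℕ => (Nat.unpair (Nat.unpair (Nat.unpair q).2).1).2 :=
    Primrec.snd.comp p5
  have p8 : Primrec fun q : ℕ => dl (Nat.unpair (Nat.unpair q).1).2 ++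
      dl (Nat.unpair (Nat.unpair q).2).2 := Primrec.list_append.comp p2 p4
  have p9 : Primrec fun q : ℕ => (dl (Nat.unpair (Nat.unpair q).1).2 ++
      dl (Nat.unpair (Nat.unpair q).2).2).length := Primrec.list_length.comp p8
  have p10 : Primrec fun q : ℕ => if (Nat.unpair (Nat.unpair (Nat.unpair q).2).1).2 ≤
      (dl (Nat.unpair (Nat.unpair q).1).2 ++ dl (Nat.unpair (Nat.unpair q).2).2).length
      then 0 else 1 :=
    Primrec.ite (PrimrecRel.comp Primrec.nat_le p7 p9) (Primrec.const 0) (Primrec.const 1)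
  have p11 : Primrec fun q : ℕ => (dl (Nat.unpair (Nat.unpair q).1).2 ++
      dl (Nat.unpair (Nat.unpair q).2).2).take
        (Nat.unpair (Nat.unpair (Nat.unpair q).2).1).2 := Primrec.list_take.comp p7 p8
  have p12 : Primrec fun q : ℕ => encode ((dl (Nat.unpair (Nat.unpair q).1).2 ++
      dl (Nat.unpair (Nat.unpair q).2).2).take
        (Nat.unpair (Nat.unpair (Nat.unpair q).2).1).2) := Primrec.encode.comp p11
  have r1 : Red (fun q => encode (pl X (Nat.unpair (Nat.unpair (Nat.unpair q).2).1).2)) y :=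
    red_comp (u := fun L => encode (pl X L))
      (v := fun q => (Nat.unpair (Nat.unpair (Nat.unpair q).2).1).2) (red_pl hX)
      (red_prim' p7 y)
  exact red_add (red_prim' p10 y) (red_ht (red_prim' p6 y) (red_prim' p1 y)
    (red_pair r1 (red_prim' p12 y)))

theorem tsE_spec {X : ℕ → ℕ} {e : ℕ} {τ ρ : List ℕ} :
    Ev e X (τ ++ ρ) ↔ ∃ j L, tsE X (Nat.pair (Nat.pair e (encode τ))
      (Nat.pair (Nat.pair j L) (encode ρ))) = 0 := by
  unfold Ev tsE
  simp only [Nat.unpair_pair, dl_encode, Nat.add_eq_zero_iff, ht_eq_zero]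
  constructor
  · rintro ⟨L, hL, hd⟩
    obtain ⟨j, hj⟩ := dom_iff_evaln.1 hd
    exact ⟨j, L, by rw [if_pos hL], hj⟩
  · rintro ⟨j, L, h1, h2⟩
    refine ⟨L, ?_, dom_iff_evaln.2 ⟨j, h2⟩⟩
    by_contra h
    rw [if_neg h] at h1
    exact absurd h1 one_ne_zero

theorem rein_ext (X : ℕ → ℕ) : REin X (fun p => ∃ ρ, Ev (Nat.unpair p).1 X
    (dl (Nat.unpair p).2 ++ ρ)) := by
  refine ⟨fun r => tsE X (Nat.pair (Nat.pair (Nat.unpair (Nat.unpair r).1).1
    (encode (dl (Nat.unpair (Nat.unpair r).1).2))) (Nat.unpair r).2), ?_, fun p => ?_⟩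
  · have q1 : Primrec fun r : ℕ => Nat.unpair (Nat.unpair r).1 :=
      Primrec.unpair.comp (Primrec.fst.comp Primrec.unpair)
    have q2 : Primrec fun r : ℕ => encode (dl (Nat.unpair (Nat.unpair r).1).2) :=
      Primrec.encode.comp (primrec_dl.comp (Primrec.snd.comp q1))
    have q3 : Primrec fun r : ℕ => (Nat.unpair (Nat.unpair r).1).1 := Primrec.fst.comp q1
    exact red_comp (red_tsE (Red.refl X)) (red_pair (red_pair (red_prim' q3 X)
      (red_prim' q2 X)) (red_snd (red_id X)))
  · simp only [Nat.unpair_pair]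
    constructor
    · rintro ⟨ρ, hρ⟩
      obtain ⟨j, L, h⟩ := tsE_spec.1 hρ
      exact ⟨_, h⟩
    · rintro ⟨m, hm⟩
      refine ⟨dl (Nat.unpair m).2, tsE_spec.2 ⟨(Nat.unpair (Nat.unpair m).1).1,
        (Nat.unpair (Nat.unpair m).1).2, ?_⟩⟩
      rw [Nat.pair_unpair]
      unfold tsE at hm ⊢
      simp only [Nat.unpair_pair, dl_encode] at hm ⊢
      exact hm

theorem rein_ev (X : ℕ → ℕ) : REin X (fun p => Ev (Nat.unpair p).1 X
    (dl (Nat.unpair p).2)) := by
  refine ⟨fun r => tsE X (Nat.pair (Nat.pair (Nat.unpair (Nat.unpair r).1).1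
    (encode (dl (Nat.unpair (Nat.unpair r).1).2)))
    (Nat.pair (Nat.unpair r).2 (encode ([] : List ℕ)))), ?_, fun p => ?_⟩
  · have q1 : Primrec fun r : ℕ => Nat.unpair (Nat.unpair r).1 :=
      Primrec.unpair.comp (Primrec.fst.comp Primrec.unpair)
    have q2 : Primrec fun r : ℕ => encode (dl (Nat.unpair (Nat.unpair r).1).2) :=
      Primrec.encode.comp (primrec_dl.comp (Primrec.snd.comp q1))
    have q3 : Primrec fun r : ℕ => (Nat.unpair (Nat.unpair r).1).1 := Primrec.fst.comp q1
    exact red_comp (red_tsE (Red.refl X)) (red_pair (red_pair (red_prim' q3 X)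
      (red_prim' q2 X)) (red_pair (red_snd (red_id X)) (red_const _ X)))
  · simp only [Nat.unpair_pair]
    constructor
    · intro hρ
      rw [← List.append_nil (dl (Nat.unpair p).2)] at hρ
      obtain ⟨j, L, h⟩ := tsE_spec.1 hρ
      exact ⟨_, h⟩
    · rintro ⟨m, hm⟩
      rw [← List.append_nil (dl (Nat.unpair p).2)]
      refine tsE_spec.2 ⟨(Nat.unpair m).1, (Nat.unpair m).2, ?_⟩
      rw [Nat.pair_unpair]
      exact hm

/-- If `G` is `1`-generic over `Y` then the jump of `Y ⊕ G` is computable from `Y' ⊕ G`. -/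
theorem gen_jump {Y G : ℕ → ℕ} (hG : Gen Y G) : Red (jmp (join Y G)) (join (jmp Y) G) := by
  classical
  set D := join (jmp Y) G with hD
  have hJ : Red (jmp Y) D := red_left _ _
  have hGD : Red G D := red_right _ _
  have h1 := (red_char (rein_ev Y)).trans hJ
  have h2 := (red_char (rein_ext Y)).trans hJ
  set χ1 : ℕ → ℕ := fun n => if Ev (Nat.unpair n).1 Y (dl (Nat.unpair n).2) then 1 else 0
    with hχ1
  set χ2 : ℕ → ℕ := fun n => if ∃ ρ, Ev (Nat.unpair n).1 Y (dl (Nat.unpair n).2 ++ ρ) then 1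
    else 0 with hχ2
  have hpl : Red (fun q => encode (pl G (Nat.unpair q).2)) D :=
    red_comp (u := fun L => encode (pl G L)) (v := fun q => (Nat.unpair q).2) (red_pl hGD)
      (red_snd (red_id D))
  have hp : Red (fun q => Nat.pair (Nat.unpair q).1 (encode (pl G (Nat.unpair q).2))) D :=
    red_pair (red_fst (red_id D)) hpl
  have hv : Red (fun q => (1 - χ1 (Nat.pair (Nat.unpair q).1 (encode (pl G (Nat.unpair q).2)))) *
      χ2 (Nat.pair (Nat.unpair q).1 (encode (pl G (Nat.unpair q).2)))) D :=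
    red_mul (red_sub (red_const 1 D) (red_comp h1 hp)) (red_comp h2 hp)
  have hex : ∀ e, ∃ L, (1 - χ1 (Nat.pair e (encode (pl G L)))) *
      χ2 (Nat.pair e (encode (pl G L))) = 0 := by
    intro e
    have hW : REin Y (fun t => Ev e Y (dl t)) := by
      obtain ⟨u, hu, hu'⟩ := rein_ev Y
      refine ⟨fun r => u (Nat.pair (Nat.pair e (Nat.unpair r).1) (Nat.unpair r).2),
        red_comp hu (red_pair (red_pair (red_const e Y) (red_fst (red_id Y)))
          (red_snd (red_id Y))), fun t => ?_⟩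
      have := hu' (Nat.pair e t)
      simp only [Nat.unpair_pair] at this ⊢
      exact this
    rcases hG _ hW with ⟨L, hL⟩ | ⟨L, hL⟩
    · refine ⟨L, ?_⟩
      have : χ1 (Nat.pair e (encode (pl G L))) = 1 := by
        simp only [hχ1, Nat.unpair_pair]
        exact if_pos hL
      rw [this]; simp
    · refine ⟨L, ?_⟩
      have : χ2 (Nat.pair e (encode (pl G L))) = 0 := by
        simp only [hχ2, Nat.unpair_pair]
        refine if_neg ?_
        rintro ⟨ρ, hρ⟩
        rw [dl_encode] at hρ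
        have h3 := pl_fn (pl G L ++ ρ)
        refine hL (fn (pl G L ++ ρ)) ?_ (pl G L ++ ρ).length ?_
        · have h4 : L ≤ (pl G L ++ ρ).length := by
            rw [List.length_append, pl_length]; omega
          rw [← pl_take (fn (pl G L ++ ρ)) h4, h3,
            List.take_append_of_le_length (by rw [pl_length]),
            List.take_of_length_le (by rw [pl_length])]
        · rw [dl_encode, h3]; exact hρ
      rw [this]; simp
  let F : ℕ → ℕ := fun e => Nat.find (hex e)
  have hF : Red F D := by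
    refine red_find hv (v := F) (fun n => ?_) (fun n m hm => ?_)
    · simp only [Nat.unpair_pair]
      exact Nat.find_spec (hex n)
    · simp only [Nat.unpair_pair]
      exact Nat.find_min (hex n) hm
  have hbit : Red (fun e => χ1 (Nat.pair e (encode (pl G (F e))))) D :=
    red_comp h1 (red_pair (red_id D) (red_comp (u := fun L => encode (pl G L)) (v := F)
      (red_pl hGD) hF))
  have hM : ∀ e, Meets e Y G ↔ χ1 (Nat.pair e (encode (pl G (F e)))) = 1 := by
    intro e
    rw [meets_iff]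
    constructor
    · rintro ⟨L, hL⟩
      by_contra h
      have h3 : χ1 (Nat.pair e (encode (pl G (F e)))) = 0 := by
        simp only [hχ1] at h ⊢
        split_ifs at h ⊢ with h5
        · exact absurd rfl h
        · rfl
      have h4 := Nat.find_spec (hex e)
      change (1 - χ1 (Nat.pair e (encode (pl G (F e))))) *
        χ2 (Nat.pair e (encode (pl G (F e)))) = 0 at h4
      rw [h3, Nat.sub_zero, one_mul] at h4
      simp only [hχ2, Nat.unpair_pair, dl_encode] at h4
      split_ifs at h4 with h5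
      apply h5
      obtain ⟨ρ, hρ⟩ := pl_prefix G (le_max_right L (F e))
      exact ⟨ρ, by rw [hρ]; exact hL.mono (pl_prefix G (le_max_left _ _))⟩
    · intro h
      simp only [hχ1, Nat.unpair_pair, dl_encode] at h
      split_ifs at h with h5
      exact ⟨_, h5⟩
  obtain ⟨s, hs, hs'⟩ := jmp_join_meets Y G
  have h6 := red_comp hbit (red_prim' hs D)
  refine (?_ : _ = jmp (join Y G)) ▸ h6
  funext e
  rcases jmp_zero_or_one (join Y G) e with h | h
  · rw [h]
    by_contra h7
    have h8 : χ1 (Nat.pair (s e) (encode (pl G (F (s e))))) = 1 := by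
      simp only [hχ1] at h7 ⊢
      split_ifs at h7 ⊢ with h5
      · rfl
      · exact absurd rfl h7
    have := (hs' e).2 ((hM (s e)).2 h8)
    omega
  · rw [h]
    exact (hM (s e)).1 ((hs' e).1 h)

end Pool.Agent.MCJ
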