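import Mathlib
import Pool.Agent.Lib.MCJ.Turing
import Pool.Agent.Lib.MCJ.Use
import Pool.Agent.Lib.MCJ.Jump
import Pool.Agent.Lib.MCJ.Gen

namespace Pool.Agent.MCJ

open Nat.Partrec (Code)
open Encodable Denumerable

/-- Iteration with an unbounded search in each step. -/
theorem red_iter_find {v R y u : ℕ → ℕ} (k : ℕ) (hv : Red v y) (hR : Red R y) (h0 : u 0 = k)
    (hstep : ∀ n, ∃ m, v (Nat.pair (Nat.pair n (u n)) m) = 0 ∧
      (∀ m' < m, v (Nat.pair (Nat.pair n (u n)) m') ≠ 0) ∧
      u (n + 1) = R (Nat.pair (Nat.pair n (u n)) m)) : Red u y := by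
  have hv' : Red (fun q => v (Nat.pair (Nat.unpair (Nat.unpair q).1).2 (Nat.unpair q).2)) y :=
    red_comp hv (red_pair (red_snd (red_fst (red_id y))) (red_snd (red_id y)))
  have hR' : Red (fun q => R (Nat.pair (Nat.unpair (Nat.unpair q).1).2 (Nat.unpair q).2)) y :=
    red_comp hR (red_pair (red_snd (red_fst (red_id y))) (red_snd (red_id y)))
  have h2 : Red (fun p => u (Nat.unpair p).2) y := by
    rw [red_iff] at hv' hR' ⊢
    have hk : Nat.RecursiveIn {fun n => Part.some (y n)} (fun _ => Part.some k) :=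
      red_iff.1 (red_const k y)
    have hid : Nat.RecursiveIn {fun n => Part.some (y n)} (fun n => Part.some n) :=
      red_iff.1 (red_id y)
    have hs := Nat.RecursiveIn.comp hR' (Nat.RecursiveIn.pair hid (Nat.RecursiveIn.rfind hv'))
    refine (Nat.RecursiveIn.prec hk hs).of_eq fun p => ?_
    rw [Part.eq_some_iff]
    have key : ∀ a n : ℕ, u n ∈ (Nat.rec (Part.some k) (fun y IH => IH >>= fun i =>
        (Nat.pair <$> (Part.some (Nat.pair a (Nat.pair y i)) : Part ℕ) <*>
          (Nat.rfind fun n => (fun m => decide (m = 0)) <$>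
            (Part.some (v (Nat.pair (Nat.unpair (Nat.unpair
              (Nat.pair (Nat.pair a (Nat.pair y i)) n)).1).2
              (Nat.unpair (Nat.pair (Nat.pair a (Nat.pair y i)) n)).2)) : Part ℕ))) >>= fun q =>
          Part.some (R (Nat.pair (Nat.unpair (Nat.unpair q).1).2 (Nat.unpair q).2))) n :
          Part ℕ) := by
      intro a n
      induction n with
      | zero => rw [h0]; exact Part.mem_some k
      | succ n ih =>
        obtain ⟨m, hm, hm', hu⟩ := hstep n
        refine Part.mem_bind_iff.2 ⟨u n, ih, ?_⟩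
        refine Part.mem_bind_iff.2 ⟨Nat.pair (Nat.pair a (Nat.pair n (u n))) m, ?_, ?_⟩
        · simp only [Seq.seq, Part.map_eq_map, Part.map_some, Part.bind_some, Part.mem_map_iff]
          refine ⟨m, ?_, rfl⟩
          rw [Nat.mem_rfind]
          simp only [Nat.unpair_pair, Part.mem_some_iff]
          refine ⟨by simp [hm], fun {j} hj => by simp [hm' j hj]⟩
        · simp only [Nat.unpair_pair, Part.mem_some_iff]
          exact hu
    exact key (Nat.unpair p).1 (Nat.unpair p).2
  have h3 := red_comp h2 (red_pair (red_const 0 y) (red_id y))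
  simpa using h3

/-- A function with a graph r.e. in `X` is computable from `X`. -/
theorem red_of_graph {A X : ℕ → ℕ}
    (h : REin X (fun k => A (Nat.unpair k).1 = (Nat.unpair k).2)) : Red A X := by
  classical
  obtain ⟨u, hu, hu'⟩ := h
  have h1 : Red (fun q => u (Nat.pair (Nat.pair (Nat.unpair q).1
      (Nat.unpair (Nat.unpair q).2).1) (Nat.unpair (Nat.unpair q).2).2)) X :=
    red_comp hu (red_pair (red_pair (red_fst (red_id X)) (red_fst (red_snd (red_id X))))
      (red_snd (red_snd (red_id X))))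
  have hex : ∀ n, ∃ m, u (Nat.pair (Nat.pair n (Nat.unpair m).1) (Nat.unpair m).2) = 0 := by
    intro n
    have : A (Nat.unpair (Nat.pair n (A n))).1 = (Nat.unpair (Nat.pair n (A n))).2 := by simp
    obtain ⟨m, hm⟩ := (hu' _).1 this
    exact ⟨Nat.pair (A n) m, by simpa using hm⟩
  have h2 : Red (fun n => Nat.find (hex n)) X := by
    refine red_find h1 (v := fun n => Nat.find (hex n)) (fun n => ?_) (fun n m hm => ?_)
    · simp only [Nat.unpair_pair]
      exact Nat.find_spec (hex n)
    · simp only [Nat.unpair_pair]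
      exact Nat.find_min (hex n) hm
  have h3 := red_fst h2
  refine (?_ : _ = A) ▸ h3
  funext n
  have h4 := (hu' (Nat.pair n (Nat.unpair (Nat.find (hex n))).1)).2
    ⟨(Nat.unpair (Nat.find (hex n))).2, Nat.find_spec (hex n)⟩
  simp only [Nat.unpair_pair] at h4
  exact h4.symm

/-- A chain of finite strings. -/
theorem chain_prefix {st : ℕ → List ℕ} (h : ∀ s, st s <+: st (s + 1)) {s t : ℕ} (hst : s ≤ t) :
    st s <+: st t := by
  induction hst with
  | refl => exact List.prefix_refl _
  | step _ ih => exact ih.trans (h _)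

/-- The limit of a chain of finite strings. -/
theorem chain_limit {st : ℕ → List ℕ} (h : ∀ s, st s <+: st (s + 1))
    (hl : ∀ s, s ≤ (st s).length) (s : ℕ) :
    pl (fun n => (st (n + 1)).getD n 0) (st s).length = st s := by
  apply pl_eq_of
  intro n hn
  have h1 : n < (st (n + 1)).length := lt_of_lt_of_le (Nat.lt_succ_self n) (hl (n + 1))
  rw [List.getD_eq_getElem _ _ h1]
  rcases le_total s (n + 1) with h2 | h2
  · obtain ⟨ρ, hρ⟩ := chain_prefix h h2
    rw [← List.getElem?_eq_getElem h1, ← hρ, List.getElem?_append_left hn]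
  · obtain ⟨ρ, hρ⟩ := chain_prefix h h2
    rw [← hρ, List.getElem?_append_left h1, List.getElem?_eq_getElem h1]

theorem getElem?_of_pl {G : ℕ → ℕ} {τ : List ℕ} {L : ℕ} (h : pl G L = τ) {n : ℕ} (hn : n < L) :
    τ[n]? = some (G n) := by
  rw [← h, pl_getElem?, if_pos hn]

end Pool.Agent.MCJ
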