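import Mathlib
import Pool.Agent.Lib.MCJ.Turing
import Pool.Agent.Lib.MCJ.Use
import Pool.Agent.Lib.MCJ.Jump
import Pool.Agent.Lib.MCJ.Gen
import Pool.Agent.Lib.MCJ.PR

namespace Pool.Agent.MCJ

open Nat.Partrec (Code)
open Encodable Denumerable

/-- A block of zeros. -/
def zs (k : ℕ) : List ℕ := (List.range k).map fun _ => 0

/-- The question asked at state `p = ⟨s, σ⟩` with the block of length `k`. -/
def nq (p k : ℕ) : ℕ := Nat.pair (Nat.unpair p).1 (encode (dl (Nat.unpair p).2 ++ (zs k ++ [1])))

/-- The next string without its last symbol. -/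
def bd (p k b m : ℕ) : List ℕ :=
  (dl (Nat.unpair p).2 ++ (zs k ++ [1])) ++ (if b = 0 then [] else dl (Nat.unpair m).2)

theorem primrec_pad {α : Type*} [Primcodable α] {p k : α → ℕ} (hp : Primrec p)
    (hk : Primrec k) : Primrec fun a => dl (Nat.unpair (p a)).2 ++ (zs (k a) ++ [1]) := by
  have h1 : Primrec fun a => dl (Nat.unpair (p a)).2 :=
    primrec_dl.comp (Primrec.snd.comp (Primrec.unpair.comp hp))
  have h2 : Primrec fun a => zs (k a) :=
    Primrec.list_map (Primrec.list_range.comp hk) (Primrec.const 0).to₂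
  exact Primrec.list_append.comp h1 (Primrec.list_append.comp h2 (Primrec.const [1]))

theorem red_nq {p k y : ℕ → ℕ} (hp : Red p y) (hk : Red k y) :
    Red (fun n => nq (p n) (k n)) y := by
  refine red_prim2 ?_ hp hk
  show Primrec fun q : ℕ × ℕ => nq q.1 q.2
  exact Primrec₂.natPair.comp (Primrec.fst.comp (Primrec.unpair.comp Primrec.fst))
    (Primrec.encode.comp (primrec_pad Primrec.fst Primrec.snd))

theorem primrec_bd : Primrec fun r : ℕ => bd (Nat.unpair (Nat.unpair r).1).1
    (Nat.unpair (Nat.unpair r).1).2 (Nat.unpair (Nat.unpair r).2).1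
    (Nat.unpair (Nat.unpair r).2).2 := by
  have a1 : Primrec fun r : ℕ => Nat.unpair (Nat.unpair r).1 :=
    Primrec.unpair.comp (Primrec.fst.comp Primrec.unpair)
  have a2 : Primrec fun r : ℕ => Nat.unpair (Nat.unpair r).2 :=
    Primrec.unpair.comp (Primrec.snd.comp Primrec.unpair)
  have a3 : Primrec fun r : ℕ => dl (Nat.unpair (Nat.unpair (Nat.unpair r).2).2).2 :=
    primrec_dl.comp (Primrec.snd.comp (Primrec.unpair.comp (Primrec.snd.comp a2)))
  have a4 : Primrec fun r : ℕ => if (Nat.unpair (Nat.unpair r).2).1 = 0 then ([] : List ℕ)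
      else dl (Nat.unpair (Nat.unpair (Nat.unpair r).2).2).2 :=
    Primrec.ite (PrimrecRel.comp Primrec.eq (Primrec.fst.comp a2) (Primrec.const 0))
      (Primrec.const []) a3
  exact Primrec.list_append.comp (primrec_pad (Primrec.fst.comp a1) (Primrec.snd.comp a1)) a4

theorem red_bd {p k b m y : ℕ → ℕ} (hp : Red p y) (hk : Red k y) (hb : Red b y)
    (hm : Red m y) : Red (fun n => encode (bd (p n) (k n) (b n) (m n))) y ∧
      Red (fun n => (bd (p n) (k n) (b n) (m n)).length) y := by
  have h1 := red_comp (red_prim' (Primrec.encode.comp primrec_bd) y)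
    (red_pair (red_pair hp hk) (red_pair hb hm))
  have h2 := red_comp (red_prim' (Primrec.list_length.comp primrec_bd) y)
    (red_pair (red_pair hp hk) (red_pair hb hm))
  simp only [Nat.unpair_pair] at h1 h2
  exact ⟨h1, h2⟩

theorem tsE_get {X : ℕ → ℕ} {e m : ℕ} {τ : List ℕ}
    (h : tsE X (Nat.pair (Nat.pair e (encode τ)) m) = 0) : Ev e X (τ ++ dl (Nat.unpair m).2) := by
  refine tsE_spec.2 ⟨(Nat.unpair (Nat.unpair m).1).1, (Nat.unpair (Nat.unpair m).1).2, ?_⟩
  rw [Nat.pair_unpair]
  unfold tsE at h ⊢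
  simp only [Nat.unpair_pair, dl_encode] at h ⊢
  exact h

theorem tsE_ex {X : ℕ → ℕ} {e : ℕ} {τ : List ℕ} :
    (∃ ρ, Ev e X (τ ++ ρ)) ↔ ∃ m, tsE X (Nat.pair (Nat.pair e (encode τ)) m) = 0 := by
  constructor
  · rintro ⟨ρ, hρ⟩
    obtain ⟨j, L, h⟩ := tsE_spec.1 hρ
    exact ⟨_, h⟩
  · rintro ⟨m, hm⟩
    exact ⟨_, tsE_get hm⟩

theorem rein_comp {X : ℕ → ℕ} {B : ℕ → Prop} (hB : REin X B) {f : ℕ → ℕ} (hf : Red f X) :
    REin X (fun n => B (f n)) := by
  obtain ⟨u, hu, hu'⟩ := hB
  refine ⟨fun r => u (Nat.pair (f (Nat.unpair r).1) (Nat.unpair r).2),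
    red_comp hu (red_pair (red_comp hf (red_fst (red_id X))) (red_snd (red_id X))), fun n => ?_⟩
  simp only [Nat.unpair_pair]
  exact hu' (f n)

/-- The simulation lemma: the sequence of strings is computable from any oracle which knows
the block lengths, the branches and the last symbols. -/
theorem red_sim {X Z y κ φ lam : ℕ → ℕ} {st : ℕ → List ℕ} {K b w : ℕ → ℕ}
    (hX : Red X y) (hκ : Red κ y) (hφ : Red φ y) (hlam : Red lam y)
    (h0 : st 0 = [])
    (hst : ∀ s, st (s + 1) = bd (Nat.pair s (encode (st s))) (K s) (b s) (w s) ++ [Z s])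
    (hb : ∀ s, b s = 0 ∨ b s = 1)
    (hw : ∀ s, b s = 1 → tsE X (Nat.pair (nq (Nat.pair s (encode (st s))) (K s)) (w s)) = 0 ∧
      ∀ m < w s, tsE X (Nat.pair (nq (Nat.pair s (encode (st s))) (K s)) m) ≠ 0)
    (h1 : ∀ s, κ (Nat.pair s (encode (st s))) = K s)
    (h2 : ∀ s, φ (Nat.pair s (encode (st s))) = b s)
    (h3 : ∀ s, lam (Nat.pair s (bd (Nat.pair s (encode (st s))) (K s) (b s) (w s)).length)
      = Z s) : Red (fun s => encode (st s)) y := by
  have i1 : Red (fun q => (Nat.unpair q).1) y := red_fst (red_id y)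
  have i2 : Red (fun q => (Nat.unpair q).2) y := red_snd (red_id y)
  have k1 : Red (fun q => κ (Nat.unpair q).1) y := red_comp hκ i1
  have f1 : Red (fun q => φ (Nat.unpair q).1) y := red_comp hφ i1
  have hv : Red (fun q => φ (Nat.unpair q).1 *
      tsE X (Nat.pair (nq (Nat.unpair q).1 (κ (Nat.unpair q).1)) (Nat.unpair q).2)) y :=
    red_mul f1 (red_comp (red_tsE hX) (red_pair (red_nq i1 k1) i2))
  obtain ⟨hb1, hb2⟩ := red_bd i1 k1 f1 i2
  have hR : Red (fun q => encode (dl (encode (bd (Nat.unpair q).1 (κ (Nat.unpair q).1)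
      (φ (Nat.unpair q).1) (Nat.unpair q).2)) ++
      [lam (Nat.pair (Nat.unpair (Nat.unpair q).1).1 (bd (Nat.unpair q).1 (κ (Nat.unpair q).1)
      (φ (Nat.unpair q).1) (Nat.unpair q).2).length)])) y :=
    red_prim2 primrec_app hb1 (red_comp hlam (red_pair (red_fst i1) hb2))
  refine red_iter_find (encode ([] : List ℕ)) hv hR (by rw [h0]) (fun s => ?_)
  simp only [Nat.unpair_pair, h1, h2, dl_encode]
  rcases hb s with hbs | hbs
  · refine ⟨0, by rw [hbs, zero_mul], fun m hm => absurd hm (Nat.not_lt_zero m), ?_⟩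
    have hbd : bd (Nat.pair s (encode (st s))) (K s) (b s) 0 =
        bd (Nat.pair s (encode (st s))) (K s) (b s) (w s) := by
      unfold bd
      rw [if_pos hbs, if_pos hbs]
    rw [hbd, h3, hst]
  · obtain ⟨hw1, hw2⟩ := hw s hbs
    refine ⟨w s, by rw [hbs, one_mul, hw1], fun m hm => ?_, ?_⟩
    · rw [hbs, one_mul]; exact hw2 m hm
    · rw [h3, hst]

/-- **The Posner-Robinson theorem**, relativised. -/
theorem posner_robinson (X A Z : ℕ → ℕ) (hA : ¬ Red A X) (hAZ : Red A Z)
    (hXZ : Red (jmp X) Z) :
    ∃ G : ℕ → ℕ, Gen X G ∧ Red G Z ∧ Red Z (join A (join X G)) ∧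
      Red (jmp (join X G)) (join A (join X G)) ∧ Red Z (jmp (join X G)) := by
  classical
  let g : ℕ → ℕ := fun k => if A (Nat.unpair k).1 = (Nat.unpair k).2 then 1 else 0
  have hg01 : ∀ k, g k = 0 ∨ g k = 1 := by
    intro k
    show (if _ then 1 else 0) = 0 ∨ (if _ then 1 else 0) = 1
    split_ifs <;> simp
  have hgA : ∀ {y}, Red A y → Red g y := fun hy =>
    red_eqv (red_comp hy (red_fst (red_id _))) (red_snd (red_id _))
  let BB : ℕ → Prop := fun p => ∃ ρ, Ev (Nat.unpair p).1 X (dl (Nat.unpair p).2 ++ ρ)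
  have hBB : REin X BB := rein_ext X
  have hBnq : ∀ p k, BB (nq p k) ↔ ∃ m, tsE X (Nat.pair (nq p k) m) = 0 := by
    intro p k
    show (∃ ρ, Ev (Nat.unpair (nq p k)).1 X (dl (Nat.unpair (nq p k)).2 ++ ρ)) ↔ _
    unfold nq
    simp only [Nat.unpair_pair, dl_encode]
    exact tsE_ex
  have hk : ∀ p, ∃ k, (BB (nq p k) ↔ g k = 0) := by
    intro p
    by_contra hcon
    push Not at hcon
    apply hA
    apply red_of_graph
    have h1 : REin X (fun k => BB (nq p k)) := rein_comp hBB (red_nq (red_const p X) (red_id X))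
    have h2 : (fun k => BB (nq p k)) = fun k => A (Nat.unpair k).1 = (Nat.unpair k).2 := by
      funext k
      apply propext
      have h3 := hcon k
      have h4 : g k = 0 ↔ ¬ (A (Nat.unpair k).1 = (Nat.unpair k).2) := by
        show (if _ then 1 else 0) = 0 ↔ _
        split_ifs with h <;> simp [h]
      rw [h4] at h3
      tauto
    rwa [h2] at h1
  let kf : ℕ → ℕ := fun p => Nat.find (hk p)
  have hkf : ∀ p, BB (nq p (kf p)) ↔ g (kf p) = 0 := fun p => Nat.find_spec (hk p)
  let w : ℕ → ℕ := fun p => if h : ∃ m, tsE X (Nat.pair (nq p (kf p)) m) = 0 then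
    Nat.find h else 0
  have hw : ∀ p, 1 - g (kf p) = 1 → tsE X (Nat.pair (nq p (kf p)) (w p)) = 0 ∧
      ∀ m < w p, tsE X (Nat.pair (nq p (kf p)) m) ≠ 0 := by
    intro p hp
    have h1 : g (kf p) = 0 := by omega
    have h2 := (hBnq p (kf p)).1 ((hkf p).2 h1)
    have h3 : w p = Nat.find h2 := dif_pos h2
    rw [h3]
    exact ⟨Nat.find_spec h2, fun m hm => Nat.find_min h2 hm⟩
  let st : ℕ → List ℕ := fun n => Nat.rec [] (fun s σ =>
    bd (Nat.pair s (encode σ)) (kf (Nat.pair s (encode σ))) (1 - g (kf (Nat.pair s (encode σ))))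
      (w (Nat.pair s (encode σ))) ++ [Z s]) n
  let P : ℕ → ℕ := fun s => Nat.pair s (encode (st s))
  have hst : ∀ s, st (s + 1) = bd (P s) (kf (P s)) (1 - g (kf (P s))) (w (P s)) ++ [Z s] :=
    fun s => rfl
  -- shape of the next string
  have hbd : ∀ s, ∃ ρ, bd (P s) (kf (P s)) (1 - g (kf (P s))) (w (P s)) =
      st s ++ (zs (kf (P s)) ++ (1 :: ρ)) := by
    intro s
    refine ⟨if 1 - g (kf (P s)) = 0 then [] else dl (Nat.unpair (w (P s))).2, ?_⟩
    unfold bd
    show (dl (Nat.unpair (Nat.pair s (encode (st s)))).2 ++ _) ++ _ = _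
    rw [Nat.unpair_pair, dl_encode]
    simp
  have hpre : ∀ s, st s <+: st (s + 1) := by
    intro s
    obtain ⟨ρ, hρ⟩ := hbd s
    rw [hst, hρ, List.append_assoc]
    exact List.prefix_append _ _
  have hlen : ∀ s, s ≤ (st s).length := by
    intro s
    induction s with
    | zero => exact Nat.zero_le _
    | succ s ih =>
      obtain ⟨ρ, hρ⟩ := hbd s
      rw [hst, hρ]
      simp only [List.length_append, List.length_cons]
      omega
  let G : ℕ → ℕ := fun n => (st (n + 1)).getD n 0
  have hG : ∀ s, pl G (st s).length = st s := chain_limit hpre hlen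
  have hzl : ∀ k, (zs k).length = k := fun k => by simp [zs]
  have hGz : ∀ s, ∀ i < kf (P s), G ((st s).length + i) = 0 := by
    intro s i hi
    obtain ⟨ρ, hρ⟩ := hbd s
    have h1 : (st s).length + i < (st (s + 1)).length := by
      rw [hst, hρ]
      simp only [List.length_append, List.length_cons, hzl]
      omega
    have h2 := getElem?_of_pl (hG (s + 1)) h1
    rw [hst, hρ, List.append_assoc, List.getElem?_append_right (by omega)] at h2
    rw [Nat.add_sub_cancel_left, List.append_assoc, List.getElem?_append_left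
      (by rw [hzl]; exact hi)] at h2
    unfold zs at h2
    rw [List.getElem?_map, List.getElem?_range hi] at h2
    exact (Option.some.inj h2).symm
  have hG1 : ∀ s, G ((st s).length + kf (P s)) = 1 := by
    intro s
    obtain ⟨ρ, hρ⟩ := hbd s
    have h1 : (st s).length + kf (P s) < (st (s + 1)).length := by
      rw [hst, hρ]
      simp only [List.length_append, List.length_cons, hzl]
      omega
    have h2 := getElem?_of_pl (hG (s + 1)) h1
    rw [hst, hρ, List.append_assoc, List.getElem?_append_right (by omega)] at h2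
    rw [Nat.add_sub_cancel_left, List.append_assoc, List.getElem?_append_right
      (by rw [hzl]), hzl, Nat.sub_self] at h2
    simpa using h2.symm
  have hGl : ∀ s, G (bd (P s) (kf (P s)) (1 - g (kf (P s))) (w (P s))).length = Z s := by
    intro s
    have h1 : (bd (P s) (kf (P s)) (1 - g (kf (P s))) (w (P s))).length < (st (s + 1)).length := by
      rw [hst, List.length_append]
      simp
    have h2 := getElem?_of_pl (hG (s + 1)) h1
    rw [hst, List.getElem?_append_right (le_refl _), Nat.sub_self] at h2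
    simpa using h2.symm
  -- the block lengths from G
  have hex : ∀ p, ∃ k, G ((dl (Nat.unpair p).2).length + k) = 1 := by
    intro p
    set l := (dl (Nat.unpair p).2).length
    refine ⟨(st l).length + kf (P l) - l, ?_⟩
    rw [Nat.add_sub_of_le (le_trans (hlen l) (Nat.le_add_right _ _))]
    exact hG1 l
  let κG : ℕ → ℕ := fun p => Nat.find (hex p)
  have hκG : ∀ s, κG (P s) = kf (P s) := by
    intro s
    have h0 : (dl (Nat.unpair (P s)).2) = st s := by
      show dl (Nat.unpair (Nat.pair s (encode (st s)))).2 = _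
      rw [Nat.unpair_pair, dl_encode]
    rw [Nat.find_eq_iff]
    rw [h0]
    exact ⟨hG1 s, fun i hi => by rw [hGz s i hi]; exact zero_ne_one⟩
  have hlenred : ∀ {p y : ℕ → ℕ}, Red p y → Red (fun n => (dl (p n)).length) y := fun hp =>
    red_comp (red_prim' (Primrec.list_length.comp primrec_dl) _) hp
  have rκG : ∀ {y}, Red G y → Red κG y := by
    intro y hy
    have h1 : Red (fun q => G ((dl (Nat.unpair (Nat.unpair q).1).2).length +
        (Nat.unpair q).2)) y :=
      red_comp hy (red_add (hlenred (red_snd (red_fst (red_id y)))) (red_snd (red_id y)))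
    have h2 := red_sub (red_const 1 y) (red_eqv h1 (red_const 1 y))
    refine red_find h2 (v := κG) (fun n => ?_) (fun n m hm => ?_)
    · simp only [Nat.unpair_pair]
      have := Nat.find_spec (hex n)
      simp only [κG, this, if_true]
    · simp only [Nat.unpair_pair]
      have := Nat.find_min (hex n) hm
      simp [this]
  have hb01 : ∀ s, 1 - g (kf (P s)) = 0 ∨ 1 - g (kf (P s)) = 1 := fun s => by
    rcases hg01 (kf (P s)) with h | h <;> simp [h]
  have hXjX : Red X (jmp X) := red_jmp X
  -- (i) from Z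
  have rst_Z : Red (fun s => encode (st s)) Z := by
    have hchi := (red_char hBB).trans hXZ
    have h1 : Red kf Z := by
      have h2 : Red (fun q => (if BB (nq (Nat.unpair q).1 (Nat.unpair q).2) then 1 else 0)) Z :=
        red_comp hchi (red_nq (red_fst (red_id Z)) (red_snd (red_id Z)))
      have h3 : Red (fun q => g (Nat.unpair q).2) Z := red_comp (hgA hAZ) (red_snd (red_id Z))
      have h4 := red_add h2 h3
      have h5 := red_add (red_sub h4 (red_const 1 Z)) (red_sub (red_const 1 Z) h4)
      refine red_find h5 (v := kf) (fun n => ?_) (fun n m hm => ?_)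
      · simp only [Nat.unpair_pair]
        have h6 := hkf n
        rcases hg01 (kf n) with h | h
        · rw [h, if_pos (h6.2 h)]
        · rw [h, if_neg (fun h7 => by have := h6.1 h7; omega)]
      · simp only [Nat.unpair_pair]
        have h6 := Nat.find_min (hk n) hm
        rcases hg01 m with h | h
        · rw [h] at h6 ⊢
          have h7 : ¬ BB (nq n m) := fun h7 => h6 ⟨fun _ => rfl, fun _ => h7⟩
          rw [if_neg h7]; simp
        · rw [h] at h6 ⊢
          have h7 : BB (nq n m) := by
            by_contra h7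
            exact h6 ⟨fun h8 => absurd h8 h7, fun h8 => absurd h8 one_ne_zero⟩
          rw [if_pos h7]; simp
    refine red_sim (κ := kf) (φ := fun p => 1 - g (kf p)) (lam := fun q => Z (Nat.unpair q).1)
      (K := fun s => kf (P s)) (b := fun s => 1 - g (kf (P s))) (w := fun s => w (P s))
      (hXjX.trans hXZ) h1 (red_sub (red_const 1 Z) (red_comp (hgA hAZ) h1))
      (red_comp (Red.refl Z) (red_fst (red_id Z))) rfl hst hb01 (fun s hs => hw (P s) hs)
      (fun s => rfl) (fun s => rfl) (fun s => ?_)
    rw [Nat.unpair_pair]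
  have hGZ : Red G Z := by
    have h1 : Red (fun n => encode (st (n + 1))) Z :=
      red_comp rst_Z (red_add (red_id Z) (red_const 1 Z))
    have h2 : Primrec₂ fun t n : ℕ => (dl t).getD n 0 :=
      (Primrec.list_getD 0).comp (primrec_dl.comp Primrec.fst) Primrec.snd
    have h3 := red_prim2 h2 h1 (red_id Z)
    refine (?_ : _ = G) ▸ h3
    funext n
    rw [dl_encode]
  -- (ii) from A, X, G
  have rst_D : Red (fun s => encode (st s)) (join A (join X G)) := by
    have hA' : Red A (join A (join X G)) := red_left _ _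
    have hX' : Red X (join A (join X G)) := (red_left _ _).trans (red_right _ _)
    have hG' : Red G (join A (join X G)) := (red_right _ _).trans (red_right _ _)
    refine red_sim (κ := κG) (φ := fun p => 1 - g (κG p)) (lam := fun q => G (Nat.unpair q).2)
      (K := fun s => kf (P s)) (b := fun s => 1 - g (kf (P s))) (w := fun s => w (P s))
      hX' (rκG hG') (red_sub (red_const 1 _) (red_comp (hgA hA') (rκG hG')))
      (red_comp hG' (red_snd (red_id _))) rfl hst hb01 (fun s hs => hw (P s) hs)
      hκG (fun s => ?_) (fun s => ?_)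
    · show 1 - g (κG (P s)) = _
      rw [hκG]
    · rw [Nat.unpair_pair]; exact hGl s
  -- (iii) from the jump
  have rst_J : Red (fun s => encode (st s)) (jmp (join X G)) := by
    have hX' : Red X (jmp (join X G)) := (red_left _ _).trans (red_jmp _)
    have hG' : Red G (jmp (join X G)) := (red_right _ _).trans (red_jmp _)
    have hchi : Red (fun n => if BB n then 1 else 0) (jmp (join X G)) :=
      (red_char hBB).trans (jmp_mono (red_left _ _))
    refine red_sim (κ := κG) (φ := fun p => if BB (nq p (κG p)) then 1 else 0)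
      (lam := fun q => G (Nat.unpair q).2)
      (K := fun s => kf (P s)) (b := fun s => 1 - g (kf (P s))) (w := fun s => w (P s))
      hX' (rκG hG') (red_comp hchi (red_nq (red_id _) (rκG hG')))
      (red_comp hG' (red_snd (red_id _))) rfl hst hb01 (fun s hs => hw (P s) hs)
      hκG (fun s => ?_) (fun s => ?_)
    · show (if BB (nq (P s) (κG (P s))) then 1 else 0) = 1 - g (kf (P s))
      rw [hκG]
      rcases hg01 (kf (P s)) with h | h
      · rw [h, if_pos ((hkf (P s)).2 h)]
      · rw [h, if_neg (fun h7 => by have := (hkf (P s)).1 h7; omega)]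
    · rw [Nat.unpair_pair]; exact hGl s
  have hZof : ∀ {y}, Red (fun s => encode (st s)) y → Red G y → Red Z y := by
    intro y h1 h2
    have h3 : Red (fun n => (dl (encode (st (n + 1)))).length - 1) y :=
      red_sub (hlenred (red_comp h1 (red_add (red_id y) (red_const 1 y)))) (red_const 1 y)
    have h4 := red_comp h2 h3
    refine (?_ : _ = Z) ▸ h4
    funext n
    rw [dl_encode, hst, List.length_append, List.length_singleton, Nat.add_sub_cancel]
    exact hGl n
  -- events
  have hno : ∀ s G' L, pl G' ((st s).length + kf (P s) + 1) =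
      pl G ((st s).length + kf (P s) + 1) → g (kf (P s)) = 1 → ¬ Ev s X (pl G' L) := by
    intro s G' L hGG hgs hE
    have h1 : ¬ BB (nq (P s) (kf (P s))) := fun h => by have := (hkf (P s)).1 h; omega
    apply h1
    set L0 := (st s).length + kf (P s) + 1 with hL0
    have h2 : Ev s X (pl G' (max L L0)) := hE.mono (pl_prefix G' (le_max_left _ _))
    obtain ⟨ρ, hρ⟩ := pl_prefix G' (le_max_right L L0)
    show ∃ ρ, Ev (Nat.unpair (nq (P s) (kf (P s)))).1 X
      (dl (Nat.unpair (nq (P s) (kf (P s)))).2 ++ ρ)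
    refine ⟨ρ, ?_⟩
    unfold nq
    rw [Nat.unpair_pair, dl_encode]
    have h3 : (Nat.unpair (P s)).1 = s ∧ dl (Nat.unpair (P s)).2 = st s := by
      constructor
      · show (Nat.unpair (Nat.pair s (encode (st s)))).1 = s
        rw [Nat.unpair_pair]
      · show dl (Nat.unpair (Nat.pair s (encode (st s)))).2 = _
        rw [Nat.unpair_pair, dl_encode]
    rw [h3.1, h3.2]
    have h4 : pl G L0 = st s ++ (zs (kf (P s)) ++ [1]) := by
      have hl4 : (st s ++ (zs (kf (P s)) ++ [1])).length = L0 := by
        simp only [List.length_append, hzl, List.length_singleton]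
        omega
      obtain ⟨ρ', hρ'⟩ := hbd s
      have h5 : st s ++ (zs (kf (P s)) ++ [1]) <+: st (s + 1) := by
        rw [hst, hρ']
        exact ⟨ρ' ++ [Z s], by simp⟩
      have h6 : L0 ≤ (st (s + 1)).length := by
        rw [← hl4]; exact h5.length_le
      have h7 : pl G (st (s + 1)).length = st (s + 1) := hG (s + 1)
      rw [← pl_take G h6, h7]
      obtain ⟨ρ'', hρ''⟩ := h5
      rw [← hρ'', ← hl4, List.take_append_of_le_length (le_refl _),
        List.take_of_length_le (le_refl _)]
    rw [← h4, ← hGG, hρ]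
    exact h2
  have hyes : ∀ s, g (kf (P s)) = 0 → Meets s X G := by
    intro s hgs
    have h1 := (hw (P s) (by rw [hgs])).1
    have h2 : Ev s X ((st s ++ (zs (kf (P s)) ++ [1])) ++ dl (Nat.unpair (w (P s))).2) := by
      have h3 : nq (P s) (kf (P s)) = Nat.pair s (encode (st s ++ (zs (kf (P s)) ++ [1]))) := by
        unfold nq
        show Nat.pair (Nat.unpair (Nat.pair s (encode (st s)))).1 (encode
          (dl (Nat.unpair (Nat.pair s (encode (st s)))).2 ++ _)) = _
        rw [Nat.unpair_pair, dl_encode]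
      rw [h3] at h1
      exact tsE_get h1
    rw [meets_iff]
    refine ⟨(st (s + 1)).length, ?_⟩
    have h7 : pl G (st (s + 1)).length = st (s + 1) := hG (s + 1)
    rw [h7]
    refine h2.mono ?_
    rw [hst]
    unfold bd
    rw [hgs, if_neg (by norm_num)]
    show _ <+: (dl (Nat.unpair (Nat.pair s (encode (st s)))).2 ++ _) ++ _ ++ _
    rw [Nat.unpair_pair, dl_encode]
    exact List.prefix_append _ _
  have hbit : ∀ s, Meets s X G ↔ g (kf (P s)) = 0 := by
    intro s
    constructor
    · intro h
      rcases hg01 (kf (P s)) with h1 | h1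
      · exact h1
      · obtain ⟨L, hL⟩ := meets_iff.1 h
        exact absurd hL (hno s G L rfl h1)
    · exact hyes s
  refine ⟨G, ?_, hGZ, hZof rst_D ((red_right _ _).trans (red_right _ _)), ?_,
    hZof rst_J ((red_right _ _).trans (red_jmp _))⟩
  · -- genericity
    intro W hW
    obtain ⟨e, he⟩ := meets_complete hW
    by_cases h : Meets e X G
    · exact Or.inl ((he G).2 h)
    · right
      have h1 : g (kf (P e)) = 1 := by
        rcases hg01 (kf (P e)) with h1 | h1
        · exact absurd ((hbit e).2 h1) h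
        · exact h1
      refine ⟨(st e).length + kf (P e) + 1, fun G' hG' L' hL' => ?_⟩
      obtain ⟨L, hL⟩ := meets_iff.1 ((he G').1 ⟨L', hL'⟩)
      exact hno e G' L hG' h1 hL
  · -- the jump
    set D := join A (join X G) with hD
    have hG' : Red G D := (red_right _ _).trans (red_right _ _)
    have h1 : Red (fun s => 1 - g (κG (Nat.pair s (encode (st s))))) D :=
      red_sub (red_const 1 D) (red_comp (hgA (red_left _ _)) (red_comp (rκG hG')
        (red_pair (red_id D) rst_D)))
    obtain ⟨s, hs, hs'⟩ := jmp_join_meets X G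
    have h2 := red_comp h1 (red_prim' hs D)
    refine (?_ : _ = jmp (join X G)) ▸ h2
    funext e
    show 1 - g (κG (P (s e))) = _
    rw [hκG]
    rcases jmp_zero_or_one (join X G) e with h | h
    · rw [h]
      rcases hg01 (kf (P (s e))) with h3 | h3
      · have := (hs' e).2 ((hbit _).2 h3); omega
      · rw [h3]
    · rw [h, (hbit _).1 ((hs' e).1 h)]

end Pool.Agent.MCJ
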