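import Mathlib
import Pool.Agent.Lib.MCJ.Turing
import Pool.Agent.Lib.MCJ.Blocks

namespace Pool.Agent.MCJ

open Filter Topology Set

/-- `F` is Baire measurable along every continuous map from the Cantor space. -/
def UB (F : (ℕ → ℕ) → (ℕ → ℕ)) : Prop :=
  ∀ φ : (ℕ → Bool) → (ℕ → ℕ), Continuous φ → ∀ m v, BaireMeasurableSet {g | F (φ g) m = v}

/-- The join of the functions `a i`, `i < d`, `i ∈ S`. -/
def jn (d : ℕ) (S : Finset ℕ) (a : ℕ → ℕ → ℕ) : ℕ → ℕ :=
  fun k => if k % d ∈ S then a (k % d) (k / d) else 0

theorem red_jn {d : ℕ} {S : Finset ℕ} {a : ℕ → ℕ → ℕ} {y : ℕ → ℕ}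
    (h : ∀ i ∈ S, Red (a i) y) : Red (jn d S a) y := by
  have h1 : ∀ i ∈ S, Red (fun k => (if k % d = i then 1 else 0) * a i (k / d)) y := fun i hi =>
    red_mul (red_eqv (red_mod (red_id _) (red_const d _)) (red_const i _))
      (red_comp (h i hi) (red_div (red_id _) (red_const d _)))
  have h2 := red_sum S h1
  have e : (fun k => ∑ i ∈ S, (if k % d = i then 1 else 0) * a i (k / d)) = jn d S a := by
    funext k
    unfold jn
    split_ifs with hk
    · rw [Finset.sum_eq_single (k % d)]
      · simp
      · intro b _ hb
        rw [if_neg (fun h => hb h.symm), zero_mul]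
      · intro h; exact absurd hk h
    · apply Finset.sum_eq_zero
      intro b hb
      rw [if_neg (fun h : k % d = b => hk (by rw [h]; exact hb)), zero_mul]
  rwa [e] at h2

theorem jn_red {d : ℕ} {S : Finset ℕ} (a : ℕ → ℕ → ℕ) {i : ℕ} (hi : i ∈ S) (hid : i < d) :
    Red (a i) (jn d S a) := by
  have h := red_comp (Red.refl (jn d S a))
    (red_add (red_mul (red_const d _) (red_id _)) (red_const i _))
  have e : (fun n => jn d S a (d * n + i)) = a i := by
    funext n
    have h1 : (d * n + i) % d = i := by rw [Nat.mul_add_mod, Nat.mod_eq_of_lt hid]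
    have h2 : (d * n + i) / d = n := by
      rw [Nat.mul_add_div (by omega), Nat.div_eq_of_lt hid, add_zero]
    unfold jn
    rw [h1, if_pos hi, h2]
  rwa [e] at h

/-- The columns of an array with `d` columns, each joined with `c`. -/
def cols (d : ℕ) (c : ℕ → ℕ) (g : ℕ → Bool) (i : ℕ) : ℕ → ℕ :=
  join c (fun p => (g (d * p + i)).toNat)

theorem continuous_cols (d : ℕ) (c : ℕ → ℕ) (S : Finset ℕ) :
    Continuous (fun g : ℕ → Bool => jn d S (cols d c g)) := by
  refine continuous_pi fun k => ?_
  unfold jn cols join
  split_ifs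
  · exact continuous_const
  · exact (continuous_of_discreteTopology (f := Bool.toNat)).comp (continuous_apply _)
  · exact continuous_const

theorem splitting (F : (ℕ → ℕ) → (ℕ → ℕ)) (hF : UB F) (n : ℕ) (c : ℕ → ℕ) :
    ∃ c0 : ℕ → ℕ, Red c c0 ∧ ∀ z, Red c0 z → ∃ a : ℕ → ℕ → ℕ, (∀ i, Red c (a i)) ∧
      Red z (jn (n + 1) (Finset.range (n + 1)) a) ∧
      Red (jn (n + 1) (Finset.range (n + 1)) a) z ∧
      ∀ S : Finset ℕ, S ⊂ Finset.range (n + 1) → Red (F (jn (n + 1) S a)) z := by
  classical
  set d := n + 1 with hd
  have hd0 : 0 < d := Nat.succ_pos n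
  let Sf : ℕ → Finset ℕ := fun s => (Encodable.decode (α := Finset ℕ) s).getD ∅
  obtain ⟨N, w, V, hN0, hNs, hNd, hV⟩ := blocks (fun s g => F (jn d (Sf s) (cols d c g)))
    (fun s m v => hF _ (continuous_cols d c (Sf s)) m v) d hd0
  choose B hB1 hB2 using fun q => block_exists hNs hN0 q
  -- position of a row in a block
  have hrow : ∀ q, B (d * (q / d)) = B q := by
    intro q
    obtain ⟨M, hM⟩ := hNd (B q)
    obtain ⟨M', hM'⟩ := hNd (B q + 1)
    have hq : d * (q / d) ≤ q := Nat.mul_div_le q d
    refine block_unique hNs (hB1 _) (hB2 _) ?_ (lt_of_le_of_lt hq (hB2 q))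
    have h1 := hB1 q
    rw [hM] at h1 ⊢
    exact Nat.mul_le_mul_left d ((Nat.le_div_iff_mul_le hd0).2 (by rw [mul_comm]; exact h1))
  let w' : ℕ → ℕ := fun q => (w q).toNat
  let W : ℕ → ℕ := fun q => (∑ j ∈ Finset.range d, w' (d * (q / d) + j)) + w' q
  let e : ℕ → ℕ := fun q => if q % d = B q % d then 1 else 0
  -- the missing column for S
  let miss : Finset ℕ → ℕ := fun S => if h : ∃ i ∈ Finset.range d, i ∉ S then h.choose else 0
  have hmiss : ∀ S, S ⊂ Finset.range d → miss S < d ∧ miss S ∉ S := by
    intro S hS
    have h : ∃ i ∈ Finset.range d, i ∉ S := Finset.exists_of_ssubset hS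
    have h1 : miss S = h.choose := dif_pos h
    rw [h1]
    exact ⟨Finset.mem_range.1 h.choose_spec.1, h.choose_spec.2⟩
  let bl : ℕ → ℕ → ℕ := fun s m => d * (s + m) + miss (Sf s)
  obtain ⟨c1, hc1⟩ := exists_bound (fun s r => V s (Nat.unpair r).1 (bl s (Nat.unpair r).1)
    (Nat.unpair r).2)
  obtain ⟨c2, hc2⟩ := exists_bound (fun s m => N (bl s m + 1))
  let c0 := join (join c w') (join (join W e) (join c1 c2))
  have hcc : Red c c0 := (red_left c w').trans (red_left _ _)
  have hcw : Red w' c0 := (red_right c w').trans (red_left _ _)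
  have hcW : Red W c0 := ((red_left W e).trans (red_left _ _)).trans (red_right _ _)
  have hce : Red e c0 := ((red_right W e).trans (red_left _ _)).trans (red_right _ _)
  have hcc1 : Red c1 c0 := ((red_left c1 c2).trans (red_right _ _)).trans (red_right _ _)
  have hcc2 : Red c2 c0 := ((red_right c1 c2).trans (red_right _ _)).trans (red_right _ _)
  refine ⟨c0, hcc, fun z hz => ?_⟩
  -- the graph of z
  let Z : ℕ → ℕ := fun q => if z (Nat.unpair q).1 = (Nat.unpair q).2 then 1 else 0
  have hZz : Red Z z := red_eqv (red_comp (Red.refl z) (red_prim Nat.Primrec.left z))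
    (red_prim Nat.Primrec.right z)
  have hzZ : Red z Z := by
    refine red_find (u := fun r => 1 - Z r) (red_sub (red_const 1 _) (Red.refl _)) ?_ ?_
    · intro k
      simp [Z]
    · intro k m hm
      have : z k ≠ m := by omega
      simp [Z, this]
  have hZ01 : ∀ q, Z q ≤ 1 := by
    intro q
    show (if z (Nat.unpair q).1 = (Nat.unpair q).2 then 1 else 0) ≤ 1
    split_ifs <;> omega
  have hw01 : ∀ q, w' q ≤ 1 := fun q => Bool.toNat_le (w q)
  -- the array
  let gn : ℕ → ℕ := fun q => e q * ((Z (q / d) + W q) % 2) + (1 - e q) * w' q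
  let g : ℕ → Bool := fun q => decide (gn q = 1)
  have hgn : ∀ q, (g q).toNat = gn q := by
    intro q
    have h1 : gn q ≤ 1 := by
      show e q * ((Z (q / d) + W q) % 2) + (1 - e q) * w' q ≤ 1
      have h2 : e q = 1 ∨ e q = 0 := by
        show (if q % d = B q % d then 1 else 0) = 1 ∨ (if q % d = B q % d then 1 else 0) = 0
        split_ifs <;> simp
      rcases h2 with h2 | h2
      · rw [h2]
        have := Nat.mod_lt (Z (q / d) + W q) (by norm_num : 0 < 2)
        omega
      · rw [h2]
        have := hw01 q
        omega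
    show (decide (gn q = 1)).toNat = gn q
    rcases Nat.le_one_iff_eq_zero_or_eq_one.1 h1 with h | h <;> simp [h]
  have hgz : Red gn z := by
    have h1 : Red e z := hce.trans hz
    exact red_add (red_mul h1 (red_mod (red_add (red_comp hZz (red_div (red_id _) (red_const d _)))
      (hcW.trans hz)) (red_const 2 _))) (red_mul (red_sub (red_const 1 _) h1) (hcw.trans hz))
  have hgoff : ∀ q, q % d ≠ B q % d → g q = w q := by
    intro q hq
    have h1 : gn q = w' q := by
      show e q * ((Z (q / d) + W q) % 2) + (1 - e q) * w' q = w' q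
      have h2 : e q = 0 := if_neg hq
      rw [h2]; simp
    show decide (gn q = 1) = w q
    rw [h1]
    show decide ((w q).toNat = 1) = w q
    cases w q <;> simp
  refine ⟨cols d c g, fun i => red_left _ _, ?_, ?_, ?_⟩
  · -- decoding
    set A := jn d (Finset.range d) (cols d c g) with hA
    have hcol : ∀ i < d, ∀ p, A (d * (2 * p + 1) + i) = gn (d * p + i) := by
      intro i hi p
      have h1 : (d * (2 * p + 1) + i) % d = i := by rw [Nat.mul_add_mod, Nat.mod_eq_of_lt hi]
      have h2 : (d * (2 * p + 1) + i) / d = 2 * p + 1 := by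
        rw [Nat.mul_add_div hd0, Nat.div_eq_of_lt hi, add_zero]
      rw [hA]
      unfold jn
      rw [h1, if_pos (Finset.mem_range.2 hi), h2]
      unfold cols join
      have h3 : (2 * p + 1) % 2 ≠ 0 := by omega
      have h4 : (2 * p + 1) / 2 = p := by omega
      rw [if_neg h3, h4]
      exact hgn _
    have hZA : Red Z A := by
      have h1 : Red (fun p => (∑ i ∈ Finset.range d, A (d * (2 * p + 1) + i)) % 2) A := by
        refine red_mod (red_sum _ fun i _ => red_comp (Red.refl A) ?_) (red_const 2 _)
        exact red_add (red_mul (red_const d _) (red_add (red_mul (red_const 2 _) (red_id _))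
          (red_const 1 _))) (red_const i _)
      have e1 : (fun p => (∑ i ∈ Finset.range d, A (d * (2 * p + 1) + i)) % 2) = Z := by
        funext p
        have h2 : ∑ i ∈ Finset.range d, A (d * (2 * p + 1) + i) =
            ∑ i ∈ Finset.range d, gn (d * p + i) :=
          Finset.sum_congr rfl fun i hi => hcol i (Finset.mem_range.1 hi) p
        rw [h2]
        have hmd : ∀ i < d, (d * p + i) % d = i := fun i hi => by
          rw [Nat.mul_add_mod, Nat.mod_eq_of_lt hi]
        have hdv : ∀ i < d, (d * p + i) / d = p := fun i hi => by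
          rw [Nat.mul_add_div hd0, Nat.div_eq_of_lt hi, add_zero]
        have hBp : ∀ i < d, B (d * p + i) = B (d * p) := fun i hi => by
          rw [← hrow (d * p + i), hdv i hi]
        set t := B (d * p) % d with ht
        have htd : t < d := Nat.mod_lt _ hd0
        have hval : ∀ i < d, gn (d * p + i) = if i = t then
            (Z p + ((∑ j ∈ Finset.range d, w' (d * p + j)) + w' (d * p + i))) % 2
            else w' (d * p + i) := by
          intro i hi
          show e (d * p + i) * ((Z ((d * p + i) / d) + ((∑ j ∈ Finset.range d,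
            w' (d * ((d * p + i) / d) + j)) + w' (d * p + i))) % 2)
            + (1 - e (d * p + i)) * w' (d * p + i) = _
          have h3 : e (d * p + i) = if i = t then 1 else 0 := by
            show (if (d * p + i) % d = B (d * p + i) % d then 1 else 0) = _
            rw [hmd i hi, hBp i hi]
          rw [h3, hdv i hi]
          split_ifs <;> simp
        rw [← Finset.add_sum_erase _ _ (Finset.mem_range.2 htd), hval t htd, if_pos rfl]
        have h4 : ∑ i ∈ (Finset.range d).erase t, gn (d * p + i) =
            ∑ i ∈ (Finset.range d).erase t, w' (d * p + i) := by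
          refine Finset.sum_congr rfl fun i hi => ?_
          have h5 := Finset.mem_erase.1 hi
          rw [hval i (Finset.mem_range.1 h5.2), if_neg h5.1]
        rw [h4]
        have h6 : ∑ j ∈ Finset.range d, w' (d * p + j) =
            w' (d * p + t) + ∑ i ∈ (Finset.range d).erase t, w' (d * p + i) :=
          (Finset.add_sum_erase _ _ (Finset.mem_range.2 htd)).symm
        rw [h6]
        have h7 := hZ01 p
        omega
      rwa [e1] at h1
    exact hzZ.trans hZA
  · refine red_jn fun i _ => red_join (hcc.trans hz) ?_
    have h1 : Red (fun p => gn (d * p + i)) z :=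
      red_comp hgz (red_add (red_mul (red_const d _) (red_id _)) (red_const i _))
    have e1 : (fun p => gn (d * p + i)) = fun p => (g (d * p + i)).toNat := by
      funext p; exact (hgn _).symm
    rwa [e1] at h1
  · intro S hS
    obtain ⟨hi, hiS⟩ := hmiss S hS
    set i := miss S with hidef
    set s := Encodable.encode S with hs
    have hSs : Sf s = S := by
      show (Encodable.decode (α := Finset ℕ) (Encodable.encode S)).getD ∅ = S
      rw [Encodable.encodek]; rfl
    let gi : ℕ → Bool := fun q => if q % d = i then w q else g q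
    have hbl : ∀ b, b % d = i → ∀ q, N b ≤ q → q < N (b + 1) → gi q = w q := by
      intro b hb q h1 h2
      show (if q % d = i then w q else g q) = w q
      split_ifs with h
      · rfl
      · apply hgoff
        rw [block_unique hNs (hB1 q) (hB2 q) h1 h2, hb]
        exact h
    have hmod : ∀ k, (d * k + i) % d = i := fun k => by rw [Nat.mul_add_mod, Nat.mod_eq_of_lt hi]
    have hfr : ∀ k, ∃ b, k ≤ b ∧ ∀ q, N b ≤ q → q < N (b + 1) → gi q = w q := by
      intro k
      refine ⟨d * k + i, ?_, hbl _ (hmod k)⟩
      have := Nat.le_mul_of_pos_left k hd0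
      omega
    have hval : ∀ m, F (jn d S (cols d c g)) m =
        V s m (bl s m) (pre (fun q => (gi q).toNat) (N (bl s m + 1))) := by
      intro m
      have hb : bl s m = d * (s + m) + i := by
        show d * (s + m) + miss (Sf s) = d * (s + m) + i
        rw [hSs]
      have hbl1 : s + m ≤ bl s m := by
        rw [hb]
        have := Nat.le_mul_of_pos_left (s + m) hd0
        omega
      have h1 := hV gi hfr (bl s m) (hbl _ (by rw [hb]; exact hmod _)) s (by omega) m (by omega)
      simp only [hSs] at h1
      rw [← h1]
      have hphi : jn d S (cols d c g) = jn d S (cols d c gi) := ?_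
      · rw [hphi]
      funext k
      unfold jn
      split_ifs with hk
      · unfold cols join
        split_ifs
        · rfl
        · have hne : (d * (k / d / 2) + k % d) % d ≠ i := by
            rw [Nat.mul_add_mod, Nat.mod_mod]
            intro h
            exact hiS (by rw [← h]; exact hk)
          show (g (d * (k / d / 2) + k % d)).toNat =
            (if (d * (k / d / 2) + k % d) % d = i then w (d * (k / d / 2) + k % d)
              else g (d * (k / d / 2) + k % d)).toNat
          rw [if_neg hne]
      · rfl
    have hgiz : Red (fun q => (gi q).toNat) z := by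
      have h1 : Red (fun q => if q % d = i then 1 else 0) z :=
        red_eqv (red_mod (red_id _) (red_const d _)) (red_const i _)
      have h2 := red_add (red_mul h1 (hcw.trans hz)) (red_mul (red_sub (red_const 1 _) h1) hgz)
      have e1 : (fun q => (if q % d = i then 1 else 0) * w' q +
          (1 - if q % d = i then 1 else 0) * gn q) = fun q => (gi q).toNat := by
        funext q
        show _ = (if q % d = i then w q else g q).toNat
        split_ifs
        · simp [w']
        · simp [hgn]
      rwa [e1] at h2
    have h3 : Red (fun m => N (bl s m + 1)) z := (hc2 s).trans (hcc2.trans hz)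
    have h4 : Red (fun r => V s (Nat.unpair r).1 (bl s (Nat.unpair r).1) (Nat.unpair r).2) z :=
      (hc1 s).trans (hcc1.trans hz)
    have h5 := red_comp h4 (red_pair (red_id z) (red_comp (red_pre hgiz) h3))
    have e5 : (fun m => V s (Nat.unpair (Nat.pair m (pre (fun q => (gi q).toNat)
        (N (bl s m + 1))))).1 (bl s (Nat.unpair (Nat.pair m (pre (fun q => (gi q).toNat)
        (N (bl s m + 1))))).1) (Nat.unpair (Nat.pair m (pre (fun q => (gi q).toNat)
        (N (bl s m + 1))))).2) = F (jn d S (cols d c g)) := by
      funext m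
      rw [Nat.unpair_pair]
      exact (hval m).symm
    rwa [e5] at h5

end Pool.Agent.MCJ
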