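import Mathlib
import Pool.Agent.Lib.MCJ.Turing
import Pool.Agent.Lib.MCJ.Use
import Pool.Agent.Lib.MCJ.Jump
import Pool.Agent.Lib.MCJ.Gen
import Pool.Agent.Lib.MCJ.PR
import Pool.Agent.Lib.MCJ.PRMain

namespace Pool.Agent.MCJ

/-- The Turing jump on degrees. -/
noncomputable def jump : Deg → Deg :=
  Quotient.map (sa := degSetoid) (sb := degSetoid) jmp
    (fun _ _ h => ⟨jmp_mono h.1, jmp_mono h.2⟩)

theorem jump_deg (x : ℕ → ℕ) : jump (deg x) = deg (jmp x) := rfl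

theorem jump_mono {a b : Deg} (h : a ≤ b) : jump a ≤ jump b := by
  obtain ⟨x, rfl⟩ := exists_rep a
  obtain ⟨y, rfl⟩ := exists_rep b
  exact jmp_mono h

theorem le_jump (a : Deg) : a ≤ jump a := by
  obtain ⟨x, rfl⟩ := exists_rep a
  exact red_jmp x

theorem deg_join (x y : ℕ → ℕ) : deg x ⊔ deg y = deg (join x y) := rfl

/-- `h` is tame: adding a real which is `1`-generic over `h(x)` to `x` adds nothing else to
`h(x)`. -/
def Tame (h : Deg → Deg) : Prop :=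
  ∃ c : Deg, ∀ x, c ≤ x → ∀ Y G : ℕ → ℕ, deg Y = h x → Gen Y G → h (x ⊔ deg G) ≤ h x ⊔ deg G

/-- `A` contains or omits a cone of degrees. -/
def TDet (A : Set Deg) : Prop :=
  (∃ c : Deg, ∀ z, c ≤ z → z ∈ A) ∨ (∃ c : Deg, ∀ z, c ≤ z → z ∉ A)

theorem tame_iterate {h : Deg → Deg} (ht : Tame h) (n : ℕ) :
    Tame (fun x => jump^[n] (h x)) := by
  induction n with
  | zero => exact ht
  | succ n ih =>
    obtain ⟨c, hc⟩ := ih
    refine ⟨c, fun x hx Y G hY hG => ?_⟩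
    simp only [Function.iterate_succ_apply'] at hY ⊢
    obtain ⟨U, hU⟩ := exists_rep (jump^[n] (h x))
    have h1 : deg Y = deg (jmp U) := by rw [hY, ← hU, jump_deg]
    have h2 : Gen (jmp U) G := hG.mono (deg_eq.1 h1).2
    have h3 : Gen U G := h2.mono (red_jmp U)
    have h4 := hc x hx U G hU h3
    calc jump (jump^[n] (h (x ⊔ deg G))) ≤ jump (jump^[n] (h x) ⊔ deg G) := jump_mono h4
      _ = deg (jmp (join U G)) := by rw [← hU, deg_join, jump_deg]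
      _ ≤ deg (join (jmp U) G) := gen_jump h3
      _ = jump (jump^[n] (h x)) ⊔ deg G := by rw [← hU, jump_deg, deg_join]

theorem iterate_mono {a b : Deg} (h : a ≤ b) (n : ℕ) : jump^[n] a ≤ jump^[n] b := by
  induction n with
  | zero => exact h
  | succ n ih => simp only [Function.iterate_succ_apply']; exact jump_mono ih

theorem le_iterate (a : Deg) (n : ℕ) : a ≤ jump^[n] a := by
  induction n with
  | zero => exact le_refl a
  | succ n ih => rw [Function.iterate_succ_apply']; exact ih.trans (le_jump _)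

/-- The step: below a point where `f` is not below the `n`-th jump of `h` there is a
Posner-Robinson pair. -/
theorem pr_pair {f h : Deg → Deg} {c : Deg} (hh : ∀ a b, c ≤ a → a ≤ b → h a ≤ h b)
    (hid : ∀ z, c ≤ z → z ≤ h z) (hfid : ∀ z, c ≤ z → z ≤ f z)
    {n : ℕ} (ht : ∀ x, c ≤ x → ∀ Y G : ℕ → ℕ, deg Y = jump^[n] (h x) → Gen Y G →
      jump^[n] (h (x ⊔ deg G)) ≤ jump^[n] (h x) ⊔ deg G)
    {x : Deg} (hx : c ≤ x) (hle : jump^[n] (h x) ≤ f x) (hnle : ¬ f x ≤ jump^[n] (h x)) :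
    ∃ Y G : ℕ → ℕ, deg Y = x ∧ Gen Y G ∧
      (f x ≤ f (x ⊔ deg G) → jump^[n + 1] (h (x ⊔ deg G)) ≤ f (x ⊔ deg G)) ∧
      (f (x ⊔ deg G) ≤ f x ⊔ deg G → f (x ⊔ deg G) ≤ jump^[n + 1] (h (x ⊔ deg G))) := by
  obtain ⟨X, hX⟩ := exists_rep (jump^[n] (h x))
  obtain ⟨A, hA⟩ := exists_rep (f x)
  have hnA : ¬ Red A X := by
    intro h'
    apply hnle
    rw [← hX, ← hA]
    exact h'
  obtain ⟨G, hG, hGZ, _, hJ, hZJ⟩ := posner_robinson X A (join A (jmp X)) hnA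
    (red_left _ _) (red_right _ _)
  have hy : x ≤ x ⊔ deg G := le_sup_left
  have hcy : c ≤ x ⊔ deg G := hx.trans hy
  have hGy : deg G ≤ x ⊔ deg G := le_sup_right
  obtain ⟨Y, hY⟩ := exists_rep x
  have hYX : Red Y X := by
    have h1 : deg Y ≤ deg X := by
      rw [hY, hX]
      exact (hid x hx).trans (le_iterate _ n)
    exact h1
  refine ⟨Y, G, hY, hG.mono hYX, fun hfy => ?_, fun hfy => ?_⟩
  · have h1 : jump^[n] (h (x ⊔ deg G)) ≤ deg (join X G) := by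
      have := ht x hx X G hX hG
      rwa [← hX] at this
    rw [Function.iterate_succ_apply']
    refine (jump_mono h1).trans ?_
    rw [jump_deg]
    refine le_trans (b := deg (join A (join X G))) hJ ?_
    rw [← deg_join, ← deg_join, hA, hX]
    exact sup_le hfy (sup_le (hle.trans hfy) (hGy.trans (hfid _ hcy)))
  · refine hfy.trans ?_
    rw [Function.iterate_succ_apply']
    have h2 : deg (join X G) ≤ jump^[n] (h (x ⊔ deg G)) := by
      rw [← deg_join, hX]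
      exact sup_le (iterate_mono (hh x _ hx hy) n)
        (hGy.trans ((hid _ hcy).trans (le_iterate _ n)))
    refine le_trans ?_ (jump_mono h2)
    rw [jump_deg]
    refine le_trans (b := deg (join A (jmp X))) ?_ hZJ
    refine sup_le ?_ hGZ
    rw [← hA]
    exact red_left _ _

/-- **Trichotomy.** -/
theorem trichotomy (f h : Deg → Deg)
    (hh : ∃ c : Deg, ∀ a b, c ≤ a → a ≤ b → h a ≤ h b)
    (hid : ∃ c : Deg, ∀ z, c ≤ z → z ≤ h z)
    (ht : Tame h)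
    (hf : ∃ c : Deg, ∀ z, c ≤ z → h z ≤ f z)
    (hK : ∃ c : Deg, ∀ a, c ≤ a → ∀ Y G : ℕ → ℕ, deg Y = a → Gen Y G →
      f a ≤ f (a ⊔ deg G) ∨ f (a ⊔ deg G) ≤ f a ⊔ deg G)
    (hTD : ∀ n, TDet {z | f z ≤ jump^[n] (h z)} ∧ TDet {z | jump^[n] (h z) ≤ f z}) (n : ℕ) :
    (∃ c : Deg, ∀ z, c ≤ z → f z ≤ jump^[n] (h z)) ∨
    (∃ c : Deg, ∀ z, c ≤ z → jump^[n + 1] (h z) ≤ f z) ∨
    ((∃ c : Deg, ∀ z, c ≤ z → jump^[n] (h z) ≤ f z ∧ f z ≤ jump^[n + 1] (h z)) ∧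
      ∀ c : Deg, ∃ a, c ≤ a ∧ ∃ Y G : ℕ → ℕ, deg Y = a ∧ Gen Y G ∧ ¬ f a ≤ f (a ⊔ deg G)) := by
  obtain ⟨c1, hc1⟩ := hh
  obtain ⟨c2, hc2⟩ := hid
  obtain ⟨c3, hc3⟩ := hf
  obtain ⟨c4, hc4⟩ := hK
  -- comparability with the n-th jump implies the trichotomy
  have step : ∀ n, ((∃ c : Deg, ∀ z, c ≤ z → f z ≤ jump^[n] (h z)) ∨
      (∃ c : Deg, ∀ z, c ≤ z → jump^[n] (h z) ≤ f z)) →
    ((∃ c : Deg, ∀ z, c ≤ z → f z ≤ jump^[n] (h z)) ∨
    (∃ c : Deg, ∀ z, c ≤ z → jump^[n + 1] (h z) ≤ f z) ∨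
    ((∃ c : Deg, ∀ z, c ≤ z → jump^[n] (h z) ≤ f z ∧ f z ≤ jump^[n + 1] (h z)) ∧
      ∀ c : Deg, ∃ a, c ≤ a ∧ ∃ Y G : ℕ → ℕ, deg Y = a ∧ Gen Y G ∧ ¬ f a ≤ f (a ⊔ deg G))) := by
    intro n hcomp
    rcases hcomp with h0 | ⟨c5, hc5⟩
    · exact Or.inl h0
    by_cases hle : ∃ c : Deg, ∀ z, c ≤ z → f z ≤ jump^[n] (h z)
    · exact Or.inl hle
    right
    obtain ⟨c6, hc6⟩ : ∃ c : Deg, ∀ z, c ≤ z → ¬ f z ≤ jump^[n] (h z) := by
      rcases (hTD n).1 with h1 | h1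
      · exact absurd h1 hle
      · exact h1
    obtain ⟨c7, hc7⟩ := tame_iterate ht n
    by_cases hup : ∃ c : Deg, ∀ z, c ≤ z → jump^[n + 1] (h z) ≤ f z
    · exact Or.inl hup
    right
    obtain ⟨c8, hc8⟩ : ∃ c : Deg, ∀ z, c ≤ z → ¬ jump^[n + 1] (h z) ≤ f z := by
      rcases (hTD (n + 1)).2 with h1 | h1
      · exact absurd h1 hup
      · exact h1
    -- the pairs
    have hpair : ∀ d : Deg, ∃ a, d ≤ a ∧ ∃ Y G : ℕ → ℕ, deg Y = a ∧ Gen Y G ∧
        ¬ f a ≤ f (a ⊔ deg G) ∧ f (a ⊔ deg G) ≤ jump^[n + 1] (h (a ⊔ deg G)) := by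
      intro d
      set e := d ⊔ (c1 ⊔ c2) ⊔ (c3 ⊔ c4) ⊔ (c5 ⊔ c6) ⊔ (c7 ⊔ c8) with he
      have e0 : d ≤ e := le_sup_left.trans (le_sup_left.trans (le_sup_left.trans le_sup_left))
      have e12 : c1 ⊔ c2 ≤ e :=
        le_sup_right.trans (le_sup_left.trans (le_sup_left.trans le_sup_left))
      have e34 : c3 ⊔ c4 ≤ e := le_sup_right.trans (le_sup_left.trans le_sup_left)
      have e56 : c5 ⊔ c6 ≤ e := le_sup_right.trans le_sup_left
      have e78 : c7 ⊔ c8 ≤ e := le_sup_right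
      have f1 : c1 ≤ e := le_sup_left.trans e12
      have f2 : c2 ≤ e := le_sup_right.trans e12
      have f3 : c3 ≤ e := le_sup_left.trans e34
      have f4 : c4 ≤ e := le_sup_right.trans e34
      have f5 : c5 ≤ e := le_sup_left.trans e56
      have f6 : c6 ≤ e := le_sup_right.trans e56
      have f7 : c7 ≤ e := le_sup_left.trans e78
      have f8 : c8 ≤ e := le_sup_right.trans e78
      obtain ⟨Y, G, hY, hG, hy1, hy2⟩ := pr_pair (f := f) (h := h) (c := e) (n := n) (x := e)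
        (fun a b ha hab => hc1 a b (f1.trans ha) hab) (fun z hz => hc2 z (f2.trans hz))
        (fun z hz => (hc2 z (f2.trans hz)).trans (hc3 z (f3.trans hz)))
        (fun x hx => hc7 x (f7.trans hx)) (le_refl e) (hc5 e f5) (hc6 e f6)
      have hy : e ≤ e ⊔ deg G := le_sup_left
      refine ⟨e, e0, Y, G, hY, hG, ?_, ?_⟩
      · intro hfe
        exact hc8 _ (f8.trans hy) (hy1 hfe)
      · rcases hc4 e f4 Y G hY hG with h1 | h1
        · exact absurd (hy1 h1) (hc8 _ (f8.trans hy))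
        · exact hy2 h1
    refine ⟨?_, fun d => ?_⟩
    · rcases (hTD (n + 1)).1 with ⟨c9, hc9⟩ | ⟨c9, hc9⟩
      · exact ⟨c5 ⊔ c9, fun z hz => ⟨hc5 z (le_sup_left.trans hz), hc9 z (le_sup_right.trans hz)⟩⟩
      · obtain ⟨a, ha, Y, G, _, _, _, hb⟩ := hpair c9
        exact absurd hb (hc9 _ (ha.trans le_sup_left))
    · obtain ⟨a, ha, Y, G, hY, hG, hn, _⟩ := hpair d
      exact ⟨a, ha, Y, G, hY, hG, hn⟩
  have comp : ∀ n, (∃ c : Deg, ∀ z, c ≤ z → f z ≤ jump^[n] (h z)) ∨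
      (∃ c : Deg, ∀ z, c ≤ z → jump^[n] (h z) ≤ f z) := by
    intro n
    induction n with
    | zero => exact Or.inr ⟨c3, hc3⟩
    | succ n ih =>
      rcases step n ih with ⟨c, hc⟩ | h1 | ⟨⟨c, hc⟩, _⟩
      · refine Or.inl ⟨c, fun z hz => (hc z hz).trans ?_⟩
        rw [Function.iterate_succ_apply']
        exact le_jump _
      · exact Or.inr h1
      · exact Or.inl ⟨c, fun z hz => (hc z hz).2⟩
  exact step n (comp n)

end Pool.Agent.MCJ
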